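import Mathlib

/-!
Stability for 4-graphs whose seven-vertex parts are of Giraud type: definitions and the statements of the pieces.
-/

set_option autoImplicit false

open Finset

namespace Pool.Agent.J6H5.St

/-- The rule of the construction with the set `A` and the matrix `D`: a four-element set `Q` is an edge if it meets `A` in
one or three elements, or if it meets `A` in two elements and an odd number of the four cells between `Q ∩ A` and `Q \ A`
is marked by `D`. -/
def gir {α : Type} [DecidableEq α] (A : Finset α) (D : α → α → Bool) (Q : Finset α) : Prop :=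
  (Q ∩ A).card = 1 ∨ (Q ∩ A).card = 3 ∨
    ((Q ∩ A).card = 2 ∧ Odd (((Q ∩ A) ×ˢ (Q \ A)).filter fun p => D p.1 p.2 = true).card)

instance {α : Type} [DecidableEq α] (A : Finset α) (D : α → α → Bool) (Q : Finset α) : Decidable (gir A D Q) := by
  unfold gir; infer_instance

/-- the 4-graph of `A` and `D` -/
def girG {n : ℕ} (A : Finset (Fin n)) (D : Fin n → Fin n → Bool) : Finset (Finset (Fin n)) :=
  (powersetCard 4 univ).filter fun Q => gir A D Q

/-- the tuple `w` induces in `H` a 4-graph of Giraud type -/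
def TypeG {n k : ℕ} (H : Finset (Finset (Fin n))) (w : Fin k → Fin n) : Prop :=
  ∃ (A : Finset (Fin k)) (D : Fin k → Fin k → Bool), ∀ Q : Finset (Fin k), Q.card = 4 → (Q.image w ∈ H ↔ gir A D Q)

open Classical in
/-- the injective seven-tuples which are not of Giraud type -/
noncomputable def B7 {n : ℕ} (H : Finset (Finset (Fin n))) : Finset (Fin 7 → Fin n) :=
  univ.filter fun w => Function.Injective w ∧ ¬ TypeG H w

/-- Piece 1. Many independent five-tuples if few five-tuples span an odd number of edges. -/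
def S1 : Prop := ∀ (n : ℕ) (H : Finset (Finset (Fin n))), (∀ e ∈ H, e.card = 4) →
  3 * n ^ 5 ≤ 128 * (univ.filter fun w : Fin 5 → Fin n => ∀ j : Fin 5, (univ.erase j).image w ∉ H).card
    + 48 * (univ.filter fun w : Fin 5 → Fin n => Odd (univ.filter fun j : Fin 5 => (univ.erase j).image w ∈ H).card).card

/-- Piece 2. Structure of ten vertices all of whose seven-vertex parts are of Giraud type and for which `t 0, ..., t 4` is
independent: four vertices which form non-edges with `t 0, t 1, t 2` form a non-edge, and if `t 5` is joined to `t 0, t 1, t 2`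
then the remaining four vertices follow the rule. -/
def S2 : Prop := ∀ (n : ℕ) (H : Finset (Finset (Fin n))) (t : Fin 10 → Fin n), Function.Injective t →
  (∀ e : Fin 7 → Fin 10, Function.Injective e → TypeG H (t ∘ e)) →
  ({t 0, t 1, t 2, t 3} : Finset (Fin n)) ∉ H → ({t 0, t 1, t 2, t 4} : Finset (Fin n)) ∉ H →
  ({t 0, t 1, t 3, t 4} : Finset (Fin n)) ∉ H → ({t 0, t 2, t 3, t 4} : Finset (Fin n)) ∉ H →
  ({t 1, t 2, t 3, t 4} : Finset (Fin n)) ∉ H →
  ((({t 0, t 1, t 2, t 6} : Finset (Fin n)) ∉ H ∧ ({t 0, t 1, t 2, t 7} : Finset (Fin n)) ∉ H ∧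
    ({t 0, t 1, t 2, t 8} : Finset (Fin n)) ∉ H ∧ ({t 0, t 1, t 2, t 9} : Finset (Fin n)) ∉ H →
      ({t 6, t 7, t 8, t 9} : Finset (Fin n)) ∉ H)) ∧
  (({t 0, t 1, t 2, t 5} : Finset (Fin n)) ∈ H →
    (({t 6, t 7, t 8, t 9} : Finset (Fin n)) ∈ H ↔
      gir (univ.filter fun x => ({t 0, t 1, t 2, x} : Finset (Fin n)) ∉ H)
        (fun x y => decide (({t 0, x, y, t 5} : Finset (Fin n)) ∈ H)) {t 6, t 7, t 8, t 9}))

/-- Piece 3 (the result): a dense 4-graph with few bad seven-tuples is close to one of Giraud type. -/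
def S3 : Prop := ∃ C : ℕ, ∀ (n : ℕ) (H : Finset (Finset (Fin n))), (∀ e ∈ H, e.card = 4) → 68 * n ^ 4 ≤ 2400 * H.card →
  ∃ (A : Finset (Fin n)) (D : Fin n → Fin n → Bool),
    (symmDiff H (girG A D)).card * n ^ 3 ≤ C * ((B7 H).card + n ^ 6)

end Pool.Agent.J6H5.St
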