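import Pool.Agent.J6H5.St.Defs

/-!
Many independent five-tuples if few five-tuples span an odd number of edges.
-/

set_option autoImplicit false

open Finset

namespace Pool.Agent.J6H5.St

section

variable {n : ℕ} (H : Finset (Finset (Fin n)))

/-- the sign of a set -/
def sg (Q : Finset (Fin n)) : ℤ := if Q ∈ H then -1 else 1

theorem sg_sq (Q : Finset (Fin n)) : sg H Q * sg H Q = 1 := by
  unfold sg; split_ifs <;> norm_num

theorem sum_five (g : (Fin 5 → Fin n) → ℤ) :
    ∑ w, g w = ∑ r : Fin 3 → Fin n, ∑ x, ∑ y, g (Fin.cons x (Fin.cons y r)) := by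
  rw [← (Fin.consEquiv fun _ : Fin 5 => Fin n).sum_comp, Fintype.sum_prod_type]
  have h : ∀ x, ∑ q : Fin 4 → Fin n, g ((Fin.consEquiv fun _ : Fin 5 => Fin n) (x, q)) =
      ∑ r : Fin 3 → Fin n, ∑ y, g (Fin.cons x (Fin.cons y r)) := by
    intro x
    rw [← (Fin.consEquiv fun _ : Fin 4 => Fin n).sum_comp, Fintype.sum_prod_type, Finset.sum_comm]
    rfl
  rw [Finset.sum_congr rfl fun x _ => h x, Finset.sum_comm]

theorem img0 (x y : Fin n) (r : Fin 3 → Fin n) :
    (univ.erase (0 : Fin 5)).image (Fin.cons x (Fin.cons y r) : Fin 5 → Fin n) =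
      insert y (univ.image r) := by
  ext z
  simp only [mem_image, mem_erase, mem_univ, and_true, mem_insert, true_and]
  constructor
  · rintro ⟨i, hi, rfl⟩
    obtain ⟨i', rfl⟩ := Fin.exists_succ_eq.2 hi
    refine Fin.cases ?_ (fun k => ?_) i'
    · left; rfl
    · right; exact ⟨k, rfl⟩
  · rintro (rfl | ⟨k, rfl⟩)
    · exact ⟨1, by decide, rfl⟩
    · exact ⟨k.succ.succ, Fin.succ_ne_zero _, rfl⟩

theorem img1 (x y : Fin n) (r : Fin 3 → Fin n) :
    (univ.erase (1 : Fin 5)).image (Fin.cons x (Fin.cons y r) : Fin 5 → Fin n) =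
      insert x (univ.image r) := by
  ext z
  simp only [mem_image, mem_erase, mem_univ, and_true, mem_insert, true_and]
  constructor
  · rintro ⟨i, hi, rfl⟩
    revert hi
    refine Fin.cases (fun _ => ?_) (fun i' => ?_) i
    · left; rfl
    · refine Fin.cases (fun hi => absurd rfl hi) (fun k _ => ?_) i'
      right; exact ⟨k, rfl⟩
  · rintro (rfl | ⟨k, rfl⟩)
    · exact ⟨0, by decide, rfl⟩
    · refine ⟨k.succ.succ, ?_, rfl⟩
      intro h
      have : k.succ = 0 := Fin.succ_injective _ h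
      exact Fin.succ_ne_zero _ this

theorem perm_img (σ : Equiv.Perm (Fin 5)) (w : Fin 5 → Fin n) (j : Fin 5) :
    (univ.erase j).image (w ∘ σ) = (univ.erase (σ j)).image w := by
  ext z
  simp only [mem_image, mem_erase, mem_univ, and_true, Function.comp]
  constructor
  · rintro ⟨i, hi, rfl⟩
    exact ⟨σ i, fun h => hi (σ.injective h), rfl⟩
  · rintro ⟨i, hi, rfl⟩
    refine ⟨σ.symm i, fun h => hi ?_, by simp⟩
    rw [← h, Equiv.apply_symm_apply]

theorem pair_sum (i j : Fin 5) (hij : i ≠ j) :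
    ∑ w : Fin 5 → Fin n, sg H ((univ.erase i).image w) * sg H ((univ.erase j).image w) =
      ∑ r : Fin 3 → Fin n, (∑ x, sg H (insert x (univ.image r))) ^ 2 := by
  obtain ⟨σ, h0, h1⟩ : ∃ σ : Equiv.Perm (Fin 5), σ i = 0 ∧ σ j = 1 := by
    revert i j
    decide
  have e : ∑ w : Fin 5 → Fin n, sg H ((univ.erase i).image w) * sg H ((univ.erase j).image w) =
      ∑ w : Fin 5 → Fin n, sg H ((univ.erase (0 : Fin 5)).image w) * sg H ((univ.erase (1 : Fin 5)).image w) := by
    refine Fintype.sum_equiv (Equiv.arrowCongr σ (Equiv.refl _)) _ _ fun w => ?_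
    have h2 : (Equiv.arrowCongr σ (Equiv.refl (Fin n))) w = w ∘ σ.symm := rfl
    rw [h2, perm_img, perm_img, ← h0, ← h1, Equiv.symm_apply_apply, Equiv.symm_apply_apply]
  rw [e, sum_five]
  refine Finset.sum_congr rfl fun r _ => ?_
  rw [sq, Finset.sum_mul_sum]
  refine Finset.sum_congr rfl fun x _ => Finset.sum_congr rfl fun y _ => ?_
  rw [img0, img1, mul_comm]

theorem single_sum (i : Fin 5) :
    ∑ w : Fin 5 → Fin n, sg H ((univ.erase i).image w) =
      n * ∑ r : Fin 3 → Fin n, ∑ x, sg H (insert x (univ.image r)) := by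
  obtain ⟨σ, h0⟩ : ∃ σ : Equiv.Perm (Fin 5), σ i = 0 := by
    revert i
    decide
  have e : ∑ w : Fin 5 → Fin n, sg H ((univ.erase i).image w) =
      ∑ w : Fin 5 → Fin n, sg H ((univ.erase (0 : Fin 5)).image w) := by
    refine Fintype.sum_equiv (Equiv.arrowCongr σ (Equiv.refl _)) _ _ fun w => ?_
    have h2 : (Equiv.arrowCongr σ (Equiv.refl (Fin n))) w = w ∘ σ.symm := rfl
    rw [h2, perm_img, ← h0, Equiv.symm_apply_apply]
  rw [e, sum_five, Finset.mul_sum]
  refine Finset.sum_congr rfl fun r _ => ?_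
  have h : ∀ x : Fin n, ∑ y, sg H ((univ.erase (0 : Fin 5)).image (Fin.cons x (Fin.cons y r) : Fin 5 → Fin n)) =
      ∑ y, sg H (insert y (univ.image r)) := fun x => Finset.sum_congr rfl fun y _ => by rw [img0]
  rw [Finset.sum_congr rfl fun x _ => h x, Finset.sum_const, Finset.card_univ, Fintype.card_fin, nsmul_eq_mul]

theorem pointwise (w : Fin 5 → Fin n) :
    (∑ j, sg H ((univ.erase j).image w)) ^ 2 + 2 * (∑ j, sg H ((univ.erase j).image w)) - 3 ≤
      32 * (if ∀ j : Fin 5, (univ.erase j).image w ∉ H then 1 else 0) +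
        12 * (if Odd (univ.filter fun j : Fin 5 => (univ.erase j).image w ∈ H).card then 1 else 0) := by
  set k := (univ.filter fun j : Fin 5 => (univ.erase j).image w ∈ H).card with hk
  have hk5 : k ≤ 5 := (card_le_univ _).trans (by simp)
  have hs : ∑ j, sg H ((univ.erase j).image w) = 5 - 2 * (k : ℤ) := by
    have h1 : ∀ j : Fin 5, sg H ((univ.erase j).image w) =
        1 - 2 * (if (univ.erase j).image w ∈ H then 1 else 0) := by
      intro j; unfold sg; split_ifs <;> norm_num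
    rw [Finset.sum_congr rfl fun j _ => h1 j, Finset.sum_sub_distrib, ← Finset.mul_sum, Finset.sum_boole]
    simp [hk]
  have h0 : (∀ j : Fin 5, (univ.erase j).image w ∉ H) ↔ k = 0 := by
    rw [hk, card_eq_zero, filter_eq_empty_iff]
    simp
  rw [hs]
  simp only [h0]
  interval_cases k <;> norm_num [Nat.odd_iff]

end

theorem s1 : S1 := by
  intro n H _
  rcases Nat.eq_zero_or_pos n with rfl | hn
  · simp
  set N0 := (univ.filter fun w : Fin 5 → Fin n => ∀ j : Fin 5, (univ.erase j).image w ∉ H).card with hN0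
  set O := (univ.filter fun w : Fin 5 → Fin n =>
    Odd (univ.filter fun j : Fin 5 => (univ.erase j).image w ∈ H).card).card with hO
  set S := ∑ r : Fin 3 → Fin n, ∑ x, sg H (insert x (univ.image r)) with hS
  set P := ∑ r : Fin 3 → Fin n, (∑ x, sg H (insert x (univ.image r))) ^ 2 with hP
  have hcard : (Fintype.card (Fin 5 → Fin n) : ℤ) = (n : ℤ) ^ 5 := by simp
  have h1 : ∑ w : Fin 5 → Fin n, ((∑ j, sg H ((univ.erase j).image w)) ^ 2 +
      2 * (∑ j, sg H ((univ.erase j).image w)) - (3 : ℤ)) ≤ 32 * (N0 : ℤ) + 12 * (O : ℤ) := by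
    refine (Finset.sum_le_sum fun w _ => pointwise H w).trans (le_of_eq ?_)
    rw [Finset.sum_add_distrib, ← Finset.mul_sum, ← Finset.mul_sum, Finset.sum_boole, Finset.sum_boole]
  have h2 : ∑ w : Fin 5 → Fin n, (∑ j, sg H ((univ.erase j).image w)) ^ 2 = 5 * (n : ℤ) ^ 5 + 20 * P := by
    have e1 : ∀ w : Fin 5 → Fin n, (∑ j, sg H ((univ.erase j).image w)) ^ 2 =
        ∑ i, ∑ j, sg H ((univ.erase i).image w) * sg H ((univ.erase j).image w) := by
      intro w
      rw [sq, Finset.sum_mul_sum]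
    rw [Finset.sum_congr rfl fun w _ => e1 w, Finset.sum_comm]
    have e2 : ∀ i : Fin 5, ∑ w : Fin 5 → Fin n, ∑ j, sg H ((univ.erase i).image w) * sg H ((univ.erase j).image w) =
        (n : ℤ) ^ 5 + 4 * P := by
      intro i
      rw [Finset.sum_comm, ← Finset.add_sum_erase _ _ (mem_univ i)]
      have e3 : ∑ w : Fin 5 → Fin n, sg H ((univ.erase i).image w) * sg H ((univ.erase i).image w) = (n : ℤ) ^ 5 := by
        rw [Finset.sum_congr rfl fun w _ => sg_sq H _, Finset.sum_const, Finset.card_univ, nsmul_eq_mul, mul_one, hcard]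
      rw [e3, Finset.sum_congr rfl fun j hj => pair_sum H i j (Finset.ne_of_mem_erase hj).symm,
        Finset.sum_const, card_erase_of_mem (mem_univ i), Finset.card_univ, Fintype.card_fin, nsmul_eq_mul]
      norm_num
      exact hP.symm
    rw [Finset.sum_congr rfl fun i _ => e2 i, Finset.sum_const, Finset.card_univ, Fintype.card_fin, nsmul_eq_mul]
    push_cast
    ring
  have h3 : ∑ w : Fin 5 → Fin n, (∑ j, sg H ((univ.erase j).image w)) = 5 * (n * S) := by
    rw [Finset.sum_comm, Finset.sum_congr rfl fun i _ => single_sum H i, Finset.sum_const, Finset.card_univ,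
      Fintype.card_fin, nsmul_eq_mul]
    norm_num
    exact Or.inl hS.symm
  have h4 : 2 * (n : ℤ) ^ 5 + 10 * (n * S) + 20 * P ≤ 32 * (N0 : ℤ) + 12 * (O : ℤ) := by
    refine le_trans (le_of_eq ?_) h1
    rw [Finset.sum_sub_distrib, Finset.sum_add_distrib, ← Finset.mul_sum, h2, h3, Finset.sum_const,
      Finset.card_univ, nsmul_eq_mul, hcard]
    ring
  have h5 : S ^ 2 ≤ (n : ℤ) ^ 3 * P := by
    have := sq_sum_le_card_mul_sum_sq (s := (univ : Finset (Fin 3 → Fin n)))
      (f := fun r => ∑ x, sg H (insert x (univ.image r)))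
    rw [Finset.card_univ] at this
    simpa using this
  have hn' : (0 : ℤ) < n := by exact_mod_cast hn
  have h6 : 3 * (n : ℤ) ^ 5 ≤ 4 * (2 * (n : ℤ) ^ 5 + 10 * (n * S) + 20 * P) := by
    have h7 : (n : ℤ) ^ 3 * (3 * (n : ℤ) ^ 5) ≤ (n : ℤ) ^ 3 * (4 * (2 * (n : ℤ) ^ 5 + 10 * (n * S) + 20 * P)) := by
      nlinarith [sq_nonneg ((n : ℤ) ^ 4 + 4 * S)]
    exact le_of_mul_le_mul_left h7 (by positivity)
  have h8 : 3 * (n : ℤ) ^ 5 ≤ 128 * (N0 : ℤ) + 48 * (O : ℤ) := by linarith
  exact_mod_cast h8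

end Pool.Agent.J6H5.St
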