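import Pool.Agent.J6H5.St.P2c

/-!
Ten vertices all of whose seven-vertex parts are of Giraud type.
-/

set_option autoImplicit false
set_option linter.unusedSectionVars false
set_option linter.unusedVariables false
set_option linter.unusedSimpArgs false

open Finset

namespace Pool.Agent.J6H5.St

variable {E : Fin 10 → Fin 10 → Fin 10 → Fin 10 → ℕ} {p q r s : Fin 10}

/-- the first five vertices -/
def I5 : Fin 5 → Fin 10 := ![0, 1, 2, 3, 4]

theorem m0 (hS : AllSev E) (hn : [0, 1, 2, 3, 4, 5, p, q, r, s].Nodup) (hp : E 0 1 2 p = 0) (hq : E 0 1 2 q = 0)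
    (hr : E 0 1 2 r = 0) (hs : E 0 1 2 s = 0) : E p q r s = 0 := by
  have hn' := hn
  simp only [List.nodup_cons, List.mem_cons, List.not_mem_nil, or_false, not_or, List.nodup_nil, and_true,
    not_false_eq_true] at hn'
  exact l2 (hS 0 1 2 p q r s (by simp; tauto)) hp hq hr hs

theorem m1 (hS : AllSev E) (hI : IndE E I5) (hn : [0, 1, 2, 3, 4, 5, p, q, r, s].Nodup) (hp : E 0 1 2 p = 0)
    (hq : E 0 1 2 q = 0) (hr : E 0 1 2 r = 0) (hs : E 0 1 2 s = 1) : E p q r s = 1 := by
  have hn' := hn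
  simp only [List.nodup_cons, List.mem_cons, List.not_mem_nil, or_false, not_or, List.nodup_nil, and_true,
    not_false_eq_true] at hn'
  obtain ⟨a1, _, a3, _⟩ := l0 I5 p q (hS 0 1 2 3 4 p q (by simp; tauto)) hI
  obtain ⟨_, _, b3, _⟩ := l0 I5 p r (hS 0 1 2 3 4 p r (by simp; tauto)) hI
  obtain ⟨_, _, c3, _⟩ := l0 I5 q r (hS 0 1 2 3 4 q r (by simp; tauto)) hI
  obtain ⟨d1, d2⟩ := l1 (a := 0) (b := 1) (c := 2) (d := 3) (x := p) (y := q) (z := r)
    (hS 0 1 2 3 p q r (by simp; tauto)) (hI 0 1 2 3 (by decide) (by decide) (by decide)) hp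
    ((a1 0 1 3 (by decide) (by decide)).trans hp) ((a1 0 2 3 (by decide) (by decide)).trans hp)
    ((a1 1 2 3 (by decide) (by decide)).trans hp) hq hr
  exact l3 (hS 0 1 2 p q r s (by simp; tauto)) (a3 0 1 (by decide) hp hq) (b3 0 1 (by decide) hp hr)
    (c3 0 1 (by decide) hq hr) d1 d2 hp hs

theorem m3 (h01 : ∀ a b c d, E a b c d = 0 ∨ E a b c d = 1) (hS : AllSev E) (hI : IndE E I5)
    (hn : [0, 1, 2, 3, 4, p, q, r, s].Nodup) (hp : E 0 1 2 p = 0) (hq : E 0 1 2 q = 1)
    (hr : E 0 1 2 r = 1) (hs : E 0 1 2 s = 1) : E p q r s = 1 := by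
  have hn' := hn
  simp only [List.nodup_cons, List.mem_cons, List.not_mem_nil, or_false, not_or, List.nodup_nil, and_true,
    not_false_eq_true] at hn'
  obtain ⟨a1, a2, _, a4⟩ := l0 I5 p q (hS 0 1 2 3 4 p q (by simp; tauto)) hI
  obtain ⟨_, b2, _, b4⟩ := l0 I5 p r (hS 0 1 2 3 4 p r (by simp; tauto)) hI
  obtain ⟨_, c2, _, c4⟩ := l0 I5 p s (hS 0 1 2 3 4 p s (by simp; tauto)) hI
  have e : ∀ a b c : Fin 5, a < b → b < c → (a = 0 ∧ b = 1 ∧ c = 2) ∨ (a = 0 ∧ b = 1 ∧ c = 3) ∨
      (a = 0 ∧ b = 2 ∧ c = 3) ∨ (a = 1 ∧ b = 2 ∧ c = 3) ∨ (a = 0 ∧ b = 1 ∧ c = 4) ∨ (a = 0 ∧ b = 2 ∧ c = 4) ∨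
      (a = 1 ∧ b = 2 ∧ c = 4) ∨ (a = 0 ∧ b = 3 ∧ c = 4) ∨ (a = 1 ∧ b = 3 ∧ c = 4) ∨ (a = 2 ∧ b = 3 ∧ c = 4) := by
    decide
  have hpq : E (I5 0) (I5 1) (I5 2) p ≠ E (I5 0) (I5 1) (I5 2) q := by
    show E 0 1 2 p ≠ E 0 1 2 q; omega
  have hpr : E (I5 0) (I5 1) (I5 2) p ≠ E (I5 0) (I5 1) (I5 2) r := by
    show E 0 1 2 p ≠ E 0 1 2 r; omega
  have hps : E (I5 0) (I5 1) (I5 2) p ≠ E (I5 0) (I5 1) (I5 2) s := by
    show E 0 1 2 p ≠ E 0 1 2 s; omega
  have gen : ∀ y : Fin 10, (∀ a b c : Fin 5, a < b → b < c → E (I5 a) (I5 b) (I5 c) y = E (I5 0) (I5 1) (I5 2) y) →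
      E 0 1 2 y = 1 → (∀ a b : Fin 5, a < b → E (I5 a) (I5 b) p y = 1) →
      ∀ a b c : Fin 5, a < b → b < c →
        E ((![1, 2, 3, 4, p] : Fin 5 → Fin 10) a) ((![1, 2, 3, 4, p] : Fin 5 → Fin 10) b)
          ((![1, 2, 3, 4, p] : Fin 5 → Fin 10) c) y = 1 := by
    intro y hy hy1 hy2 a b c h1 h2
    rcases e a b c h1 h2 with ⟨rfl, rfl, rfl⟩ | ⟨rfl, rfl, rfl⟩ | ⟨rfl, rfl, rfl⟩ | ⟨rfl, rfl, rfl⟩ |
      ⟨rfl, rfl, rfl⟩ | ⟨rfl, rfl, rfl⟩ | ⟨rfl, rfl, rfl⟩ | ⟨rfl, rfl, rfl⟩ | ⟨rfl, rfl, rfl⟩ | ⟨rfl, rfl, rfl⟩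
    · exact (hy 1 2 3 (by decide) (by decide)).trans hy1
    · exact (hy 1 2 4 (by decide) (by decide)).trans hy1
    · exact (hy 1 3 4 (by decide) (by decide)).trans hy1
    · exact (hy 2 3 4 (by decide) (by decide)).trans hy1
    · exact hy2 1 2 (by decide)
    · exact hy2 1 3 (by decide)
    · exact hy2 2 3 (by decide)
    · exact hy2 1 4 (by decide)
    · exact hy2 2 4 (by decide)
    · exact hy2 3 4 (by decide)
  have hI' : IndE E ![1, 2, 3, 4, p] := by
    have e4 : ∀ a b c d : Fin 5, a < b → b < c → c < d → (a = 0 ∧ b = 1 ∧ c = 2 ∧ d = 3) ∨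
        (a = 0 ∧ b = 1 ∧ c = 2 ∧ d = 4) ∨ (a = 0 ∧ b = 1 ∧ c = 3 ∧ d = 4) ∨ (a = 0 ∧ b = 2 ∧ c = 3 ∧ d = 4) ∨
        (a = 1 ∧ b = 2 ∧ c = 3 ∧ d = 4) := by decide
    intro a b c d h1 h2 h3
    rcases e4 a b c d h1 h2 h3 with ⟨rfl, rfl, rfl, rfl⟩ | ⟨rfl, rfl, rfl, rfl⟩ | ⟨rfl, rfl, rfl, rfl⟩ |
      ⟨rfl, rfl, rfl, rfl⟩ | ⟨rfl, rfl, rfl, rfl⟩
    · exact hI 1 2 3 4 (by decide) (by decide) (by decide)
    · exact (a1 1 2 3 (by decide) (by decide)).trans hp
    · exact (a1 1 2 4 (by decide) (by decide)).trans hp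
    · exact (a1 1 3 4 (by decide) (by decide)).trans hp
    · exact (a1 2 3 4 (by decide) (by decide)).trans hp
  exact l4 (x := q) (y := r) (z := s) h01 hS ![1, 2, 3, 4, p] hI'
    (by show [(1 : Fin 10), 2, 3, 4, p, q, r, s].Nodup; simp; tauto)
    (gen q a2 hq fun a b h => a4 a b h hpq) (gen r b2 hr fun a b h => b4 a b h hpr)
    (gen s c2 hs fun a b h => c4 a b h hps) 4

/-- three vertices of the second kind and one of the first five -/
theorem m3' (h01 : ∀ a b c d, E a b c d = 0 ∨ E a b c d = 1) (hS : AllSev E) (hI : IndE E I5)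
    (hn : [0, 1, 2, 3, 4, q, r, s].Nodup) (hq : E 0 1 2 q = 1)
    (hr : E 0 1 2 r = 1) (hs : E 0 1 2 s = 1) : E 0 q r s = 1 := by
  have hn' := hn
  simp only [List.nodup_cons, List.mem_cons, List.not_mem_nil, or_false, not_or, List.nodup_nil, and_true,
    not_false_eq_true] at hn'
  obtain ⟨a1, a2, _, _⟩ := l0 I5 q r (hS 0 1 2 3 4 q r (by simp; tauto)) hI
  obtain ⟨_, b2, _, _⟩ := l0 I5 q s (hS 0 1 2 3 4 q s (by simp; tauto)) hI
  exact l4 (x := q) (y := r) (z := s) h01 hS I5 hI hn (fun a b c h1 h2 => (a1 a b c h1 h2).trans hq)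
    (fun a b c h1 h2 => (a2 a b c h1 h2).trans hr) (fun a b c h1 h2 => (b2 a b c h1 h2).trans hs) 0

/-- the parity of the edges in a five-vertex part -/
theorem par (hS : AllSev E) {a b c p q r s : Fin 10} (hn : [a, b, c, p, q, r, s].Nodup) :
    2 ∣ E a p q r + E a p q s + E a p r s + E a q r s + E p q r s := by
  obtain ⟨α, hα, P, Q, F⟩ := hS a b c p q r s hn
  exact F 0 3 4 5 6 (by decide)

theorem m4 (h01 : ∀ a b c d, E a b c d = 0 ∨ E a b c d = 1) (hS : AllSev E) (hI : IndE E I5)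
    (hn : [0, 1, 2, 3, 4, 5, p, q, r, s].Nodup) (hp : E 0 1 2 p = 1) (hq : E 0 1 2 q = 1)
    (hr : E 0 1 2 r = 1) (hs : E 0 1 2 s = 1) : E p q r s = 0 := by
  have hn' := hn
  simp only [List.nodup_cons, List.mem_cons, List.not_mem_nil, or_false, not_or, List.nodup_nil, and_true,
    not_false_eq_true] at hn'
  have h1 := m3' (q := p) (r := q) (s := r) h01 hS hI (by simp; tauto) hp hq hr
  have h2 := m3' (q := p) (r := q) (s := s) h01 hS hI (by simp; tauto) hp hq hs
  have h3 := m3' (q := p) (r := r) (s := s) h01 hS hI (by simp; tauto) hp hr hs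
  have h4 := m3' (q := q) (r := r) (s := s) h01 hS hI (by simp; tauto) hq hr hs
  have h5 := par hS (a := 0) (b := 1) (c := 2) (p := p) (q := q) (r := r) (s := s) (by simp; tauto)
  have h6 := h01 p q r s
  omega

theorem m2 (h01 : ∀ a b c d, E a b c d = 0 ∨ E a b c d = 1) (hS : AllSev E) (hI : IndE E I5)
    (hn : [0, 1, 2, 3, 4, 5, p, q, r, s].Nodup) (h5 : E 0 1 2 5 = 1) (hp : E 0 1 2 p = 0) (hq : E 0 1 2 q = 0)
    (hr : E 0 1 2 r = 1) (hs : E 0 1 2 s = 1) :
    2 ∣ E p q r s + E 0 p r 5 + E 0 p s 5 + E 0 q r 5 + E 0 q s 5 := by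
  have hn' := hn
  simp only [List.nodup_cons, List.mem_cons, List.not_mem_nil, or_false, not_or, List.nodup_nil, and_true,
    not_false_eq_true] at hn'
  obtain ⟨a1, _, _, _⟩ := l0 I5 p q (hS 0 1 2 3 4 p q (by simp; tauto)) hI
  have f1 := par hS (a := 0) (b := 1) (c := 2) (p := p) (q := q) (r := r) (s := s) (by simp; tauto)
  have f2 := par hS (a := 0) (b := 1) (c := 2) (p := p) (q := r) (r := s) (s := 5) (by simp; tauto)
  have f3 := par hS (a := 0) (b := 1) (c := 2) (p := q) (q := r) (r := s) (s := 5) (by simp; tauto)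
  have g1 : E 0 p q r = 1 := l3' (a := 0) (b := 1) (c := 2) (d := 3) (x := p) (y := q) (z := r)
    (hS 0 1 2 3 p q r (by simp; tauto)) (hI 0 1 2 3 (by decide) (by decide) (by decide)) hp
    ((a1 0 1 3 (by decide) (by decide)).trans hp) ((a1 0 2 3 (by decide) (by decide)).trans hp)
    ((a1 1 2 3 (by decide) (by decide)).trans hp) hq hr
  have g2 : E 0 p q s = 1 := l3' (a := 0) (b := 1) (c := 2) (d := 3) (x := p) (y := q) (z := s)
    (hS 0 1 2 3 p q s (by simp; tauto)) (hI 0 1 2 3 (by decide) (by decide) (by decide)) hp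
    ((a1 0 1 3 (by decide) (by decide)).trans hp) ((a1 0 2 3 (by decide) (by decide)).trans hp)
    ((a1 1 2 3 (by decide) (by decide)).trans hp) hq hs
  have g3 := m3' (q := r) (r := s) (s := 5) h01 hS hI (by simp; tauto) hr hs h5
  have g4 := m3 (p := p) (q := r) (r := s) (s := 5) h01 hS hI (by simp; tauto) hp hr hs h5
  have g5 := m3 (p := q) (q := r) (r := s) (s := 5) h01 hS hI (by simp; tauto) hq hr hs h5
  omega

theorem s2 : S2 := by
  intro n H t ht hT i1 i2 i3 i4 i5
  set E : Fin 10 → Fin 10 → Fin 10 → Fin 10 → ℕ := fun a b c d => Ed H (t a) (t b) (t c) (t d) with hE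
  have h01 : ∀ a b c d, E a b c d = 0 ∨ E a b c d = 1 := fun a b c d => ed_cases H _ _ _ _
  have hz : ∀ a b c d, ({t a, t b, t c, t d} : Finset (Fin n)) ∉ H → E a b c d = 0 := fun a b c d h => if_neg h
  have ho : ∀ a b c d, ({t a, t b, t c, t d} : Finset (Fin n)) ∈ H → E a b c d = 1 := fun a b c d h => if_pos h
  have hS : AllSev E := by
    intro a b c d e f g hn
    have hinj : Function.Injective (![a, b, c, d, e, f, g] : Fin 7 → Fin 10) := List.nodup_ofFn.1 (by simpa using hn)
    exact sev_of_type H (hT _ hinj)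
  have hI : IndE E I5 := by
    have e4 : ∀ a b c d : Fin 5, a < b → b < c → c < d → (a = 0 ∧ b = 1 ∧ c = 2 ∧ d = 3) ∨
        (a = 0 ∧ b = 1 ∧ c = 2 ∧ d = 4) ∨ (a = 0 ∧ b = 1 ∧ c = 3 ∧ d = 4) ∨ (a = 0 ∧ b = 2 ∧ c = 3 ∧ d = 4) ∨
        (a = 1 ∧ b = 2 ∧ c = 3 ∧ d = 4) := by decide
    intro a b c d h1 h2 h3
    rcases e4 a b c d h1 h2 h3 with ⟨rfl, rfl, rfl, rfl⟩ | ⟨rfl, rfl, rfl, rfl⟩ | ⟨rfl, rfl, rfl, rfl⟩ |
      ⟨rfl, rfl, rfl, rfl⟩ | ⟨rfl, rfl, rfl, rfl⟩
    · exact hz 0 1 2 3 i1
    · exact hz 0 1 2 4 i2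
    · exact hz 0 1 3 4 i3
    · exact hz 0 2 3 4 i4
    · exact hz 1 2 3 4 i5
  refine ⟨fun h => ?_, fun h5 => ?_⟩
  · have h1 := m0 (p := 6) (q := 7) (r := 8) (s := 9) hS (by decide) (hz 0 1 2 6 h.1) (hz 0 1 2 7 h.2.1)
      (hz 0 1 2 8 h.2.2.1) (hz 0 1 2 9 h.2.2.2)
    intro h2
    have h3 := ho 6 7 8 9 h2
    omega
  · have g5 : E 0 1 2 5 = 1 := ho 0 1 2 5 h5
    have hnd : [t 6, t 7, t 8, t 9].Nodup := by
      have : ([6, 7, 8, 9] : List (Fin 10)).Nodup := by decide
      exact this.map ht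
    rw [gir_nat _ _ hnd]
    have hmb : ∀ a : Fin 10, mb (univ.filter fun x => ({t 0, t 1, t 2, x} : Finset (Fin n)) ∉ H) (t a) =
        1 - E 0 1 2 a := by
      intro a
      unfold mb
      by_cases h : ({t 0, t 1, t 2, t a} : Finset (Fin n)) ∈ H
      · rw [ho 0 1 2 a h, if_neg (by simp [h])]
      · rw [hz 0 1 2 a h, if_pos (by simp [h])]
    have hcl : ∀ a b : Fin 10, cl (univ.filter fun x => ({t 0, t 1, t 2, x} : Finset (Fin n)) ∉ H)
        (fun x y => decide (({t 0, x, y, t 5} : Finset (Fin n)) ∈ H)) (t a) (t b) =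
        if E 0 1 2 a = 0 ∧ E 0 1 2 b = 1 then E 0 a b 5 else 0 := by
      intro a b
      unfold cl
      by_cases h : ({t 0, t 1, t 2, t a} : Finset (Fin n)) ∈ H
      · rw [ho 0 1 2 a h, if_neg (by simp [h]), if_neg (by simp)]
      · by_cases h' : ({t 0, t 1, t 2, t b} : Finset (Fin n)) ∈ H
        · rw [hz 0 1 2 a h, ho 0 1 2 b h', if_pos (And.intro rfl rfl)]
          by_cases h'' : ({t 0, t a, t b, t 5} : Finset (Fin n)) ∈ H
          · rw [ho 0 a b 5 h'', if_pos (by simp [h, h', h''])]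
          · rw [hz 0 a b 5 h'', if_neg (by simp [h''])]
        · rw [hz 0 1 2 b h', if_neg (by simp [h']), if_neg (by simp)]
    have hmem : (({t 6, t 7, t 8, t 9} : Finset (Fin n)) ∈ H) ↔ E 6 7 8 9 = 1 := by
      constructor
      · exact ho 6 7 8 9
      · intro h
        by_contra h'
        have := hz 6 7 8 9 h'
        omega
    have hperm : ∀ p q r s : Fin 10, ({p, q, r, s} : Finset (Fin 10)) = {6, 7, 8, 9} → E p q r s = E 6 7 8 9 := by
      intro p q r s h
      refine ed_congr H ?_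
      have := congrArg (fun Q => Q.image t) h
      simpa only [image_insert, image_singleton] using this
    rw [hmem, hmb, hmb, hmb, hmb, hcl, hcl, hcl, hcl, hcl, hcl, hcl, hcl, hcl, hcl, hcl, hcl]
    have hE6 := h01 6 7 8 9
    rcases h01 0 1 2 6 with h6 | h6
    · rcases h01 0 1 2 7 with h7 | h7
      · rcases h01 0 1 2 8 with h8 | h8
        · rcases h01 0 1 2 9 with h9 | h9
          · have k1 := m0 (p := 6) (q := 7) (r := 8) (s := 9) hS (by decide) h6 h7 h8 h9
            have k2 := hperm 6 7 8 9 (by decide)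
            simp only [h6, h7, h8, h9, and_self, and_true, and_false, true_and, false_and, if_true, if_false, zero_ne_one, one_ne_zero, true_or, iff_true]
            omega
          · have k1 := m1 (p := 6) (q := 7) (r := 8) (s := 9) hS hI (by decide) h6 h7 h8 h9
            have k2 := hperm 6 7 8 9 (by decide)
            simp only [h6, h7, h8, h9, and_self, and_true, and_false, true_and, false_and, if_true, if_false, zero_ne_one, one_ne_zero, true_or, iff_true]
            omega
        · rcases h01 0 1 2 9 with h9 | h9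
          · have k1 := m1 (p := 6) (q := 7) (r := 9) (s := 8) hS hI (by decide) h6 h7 h9 h8
            have k2 := hperm 6 7 9 8 (by decide)
            simp only [h6, h7, h8, h9, and_self, and_true, and_false, true_and, false_and, if_true, if_false, zero_ne_one, one_ne_zero, true_or, iff_true]
            omega
          · have k1 := m2 (p := 6) (q := 7) (r := 8) (s := 9) h01 hS hI (by decide) g5 h6 h7 h8 h9
            have k2 := hperm 6 7 8 9 (by decide)
            simp only [h6, h7, h8, h9, and_self, and_true, and_false, true_and, false_and, if_true, if_false, zero_ne_one, one_ne_zero, true_or, iff_true]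
            omega
      · rcases h01 0 1 2 8 with h8 | h8
        · rcases h01 0 1 2 9 with h9 | h9
          · have k1 := m1 (p := 6) (q := 8) (r := 9) (s := 7) hS hI (by decide) h6 h8 h9 h7
            have k2 := hperm 6 8 9 7 (by decide)
            simp only [h6, h7, h8, h9, and_self, and_true, and_false, true_and, false_and, if_true, if_false, zero_ne_one, one_ne_zero, true_or, iff_true]
            omega
          · have k1 := m2 (p := 6) (q := 8) (r := 7) (s := 9) h01 hS hI (by decide) g5 h6 h8 h7 h9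
            have k2 := hperm 6 8 7 9 (by decide)
            simp only [h6, h7, h8, h9, and_self, and_true, and_false, true_and, false_and, if_true, if_false, zero_ne_one, one_ne_zero, true_or, iff_true]
            omega
        · rcases h01 0 1 2 9 with h9 | h9
          · have k1 := m2 (p := 6) (q := 9) (r := 7) (s := 8) h01 hS hI (by decide) g5 h6 h9 h7 h8
            have k2 := hperm 6 9 7 8 (by decide)
            simp only [h6, h7, h8, h9, and_self, and_true, and_false, true_and, false_and, if_true, if_false, zero_ne_one, one_ne_zero, true_or, iff_true]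
            omega
          · have k1 := m3 (p := 6) (q := 7) (r := 8) (s := 9) h01 hS hI (by decide) h6 h7 h8 h9
            have k2 := hperm 6 7 8 9 (by decide)
            simp only [h6, h7, h8, h9, and_self, and_true, and_false, true_and, false_and, if_true, if_false, zero_ne_one, one_ne_zero, true_or, iff_true]
            omega
    · rcases h01 0 1 2 7 with h7 | h7
      · rcases h01 0 1 2 8 with h8 | h8
        · rcases h01 0 1 2 9 with h9 | h9
          · have k1 := m1 (p := 7) (q := 8) (r := 9) (s := 6) hS hI (by decide) h7 h8 h9 h6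
            have k2 := hperm 7 8 9 6 (by decide)
            simp only [h6, h7, h8, h9, and_self, and_true, and_false, true_and, false_and, if_true, if_false, zero_ne_one, one_ne_zero, true_or, iff_true]
            omega
          · have k1 := m2 (p := 7) (q := 8) (r := 6) (s := 9) h01 hS hI (by decide) g5 h7 h8 h6 h9
            have k2 := hperm 7 8 6 9 (by decide)
            simp only [h6, h7, h8, h9, and_self, and_true, and_false, true_and, false_and, if_true, if_false, zero_ne_one, one_ne_zero, true_or, iff_true]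
            omega
        · rcases h01 0 1 2 9 with h9 | h9
          · have k1 := m2 (p := 7) (q := 9) (r := 6) (s := 8) h01 hS hI (by decide) g5 h7 h9 h6 h8
            have k2 := hperm 7 9 6 8 (by decide)
            simp only [h6, h7, h8, h9, and_self, and_true, and_false, true_and, false_and, if_true, if_false, zero_ne_one, one_ne_zero, true_or, iff_true]
            omega
          · have k1 := m3 (p := 7) (q := 6) (r := 8) (s := 9) h01 hS hI (by decide) h7 h6 h8 h9
            have k2 := hperm 7 6 8 9 (by decide)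
            simp only [h6, h7, h8, h9, and_self, and_true, and_false, true_and, false_and, if_true, if_false, zero_ne_one, one_ne_zero, true_or, iff_true]
            omega
      · rcases h01 0 1 2 8 with h8 | h8
        · rcases h01 0 1 2 9 with h9 | h9
          · have k1 := m2 (p := 8) (q := 9) (r := 6) (s := 7) h01 hS hI (by decide) g5 h8 h9 h6 h7
            have k2 := hperm 8 9 6 7 (by decide)
            simp only [h6, h7, h8, h9, and_self, and_true, and_false, true_and, false_and, if_true, if_false, zero_ne_one, one_ne_zero, true_or, iff_true]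
            omega
          · have k1 := m3 (p := 8) (q := 6) (r := 7) (s := 9) h01 hS hI (by decide) h8 h6 h7 h9
            have k2 := hperm 8 6 7 9 (by decide)
            simp only [h6, h7, h8, h9, and_self, and_true, and_false, true_and, false_and, if_true, if_false, zero_ne_one, one_ne_zero, true_or, iff_true]
            omega
        · rcases h01 0 1 2 9 with h9 | h9
          · have k1 := m3 (p := 9) (q := 6) (r := 7) (s := 8) h01 hS hI (by decide) h9 h6 h7 h8
            have k2 := hperm 9 6 7 8 (by decide)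
            simp only [h6, h7, h8, h9, and_self, and_true, and_false, true_and, false_and, if_true, if_false, zero_ne_one, one_ne_zero, true_or, iff_true]
            omega
          · have k1 := m4 (p := 6) (q := 7) (r := 8) (s := 9) h01 hS hI (by decide) h6 h7 h8 h9
            have k2 := hperm 6 7 8 9 (by decide)
            simp only [h6, h7, h8, h9, and_self, and_true, and_false, true_and, false_and, if_true, if_false, zero_ne_one, one_ne_zero, true_or, iff_true]
            omega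

end Pool.Agent.J6H5.St
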