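import Pool.Agent.J6H5.St.Defs

set_option autoImplicit false
set_option linter.unusedSectionVars false

open Finset

namespace Pool.Agent.J6H5.St

section

variable {α : Type} [DecidableEq α] (A : Finset α) (D : α → α → Bool)

/-- membership -/
def mb (x : α) : ℕ := if x ∈ A then 1 else 0

/-- a marked cell -/
def cl (x y : α) : ℕ := if x ∈ A ∧ y ∉ A ∧ D x y = true then 1 else 0

theorem card_marked (P R : Finset α) : (((P ×ˢ R).filter fun p => D p.1 p.2 = true).card) =
    ∑ x ∈ P, ∑ y ∈ R, (if D x y = true then 1 else 0) := by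
  rw [card_filter, sum_product]

theorem gir_nat {a b c d : α} (h : [a, b, c, d].Nodup) :
    gir A D {a, b, c, d} ↔ ((mb A a + mb A b + mb A c + mb A d) % 2 = 1 ∨
      (cl A D a b + cl A D b a + cl A D a c + cl A D c a + cl A D a d + cl A D d a +
        cl A D b c + cl A D c b + cl A D b d + cl A D d b + cl A D c d + cl A D d c) % 2 = 1) := by
  simp only [List.nodup_cons, List.mem_cons, List.not_mem_nil, or_false, not_or, List.nodup_nil, and_true,
    not_false_eq_true] at h
  obtain ⟨⟨hab, hac, had⟩, ⟨hbc, hbd⟩, hcd⟩ := h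
  have e1 : ({a, b, c, d} : Finset α) ∩ A = ({a, b, c, d} : Finset α).filter (· ∈ A) := by
    ext x; simp only [mem_inter, mem_filter]
  have e2 : ({a, b, c, d} : Finset α) \ A = ({a, b, c, d} : Finset α).filter (· ∉ A) := by
    ext x; simp only [mem_sdiff, mem_filter]
  unfold gir
  rw [card_marked, e1, e2]
  by_cases ha : a ∈ A <;> by_cases hb : b ∈ A <;> by_cases hc : c ∈ A <;> by_cases hd : d ∈ A <;>
    simp [mb, cl, ha, hb, hc, hd, filter_insert, filter_singleton, hab, hac, had, hbc, hbd, hcd,
      Nat.odd_iff, add_comm, add_left_comm, -Finset.sum_boole]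

theorem gir_num {a b c d : α} (h : [a, b, c, d].Nodup) :
    (if gir A D {a, b, c, d} then 1 else 0) = (if (mb A a + mb A b + mb A c + mb A d) % 2 = 1 then 1 else
      (cl A D a b + cl A D b a + cl A D a c + cl A D c a + cl A D a d + cl A D d a +
        cl A D b c + cl A D c b + cl A D b d + cl A D d b + cl A D c d + cl A D d c) % 2) := by
  have h1 := gir_nat A D h
  by_cases h2 : (mb A a + mb A b + mb A c + mb A d) % 2 = 1
  · rw [if_pos h2, if_pos (h1.2 (Or.inl h2))]
  · rw [if_neg h2]
    split_ifs with h3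
    · rcases h1.1 h3 with h4 | h4
      · exact absurd h4 h2
      · exact h4.symm
    · rcases Nat.mod_two_eq_zero_or_one (cl A D a b + cl A D b a + cl A D a c + cl A D c a + cl A D a d +
        cl A D d a + cl A D b c + cl A D c b + cl A D b d + cl A D d b + cl A D c d + cl A D d c) with h6 | h6
      · exact h6.symm
      · exact absurd (h1.2 (Or.inr h6)) h3

theorem five {a b c d e : α} (h : [a, b, c, d, e].Nodup) :
    2 ∣ (if gir A D {a, b, c, d} then 1 else 0) + (if gir A D {a, b, c, e} then 1 else 0) +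
      (if gir A D {a, b, d, e} then 1 else 0) + (if gir A D {a, c, d, e} then 1 else 0) +
      (if gir A D {b, c, d, e} then 1 else 0) := by
  have h' := h
  simp only [List.nodup_cons, List.mem_cons, List.not_mem_nil, or_false, not_or, List.nodup_nil, and_true,
    not_false_eq_true] at h'
  obtain ⟨⟨hab, hac, had, hae⟩, ⟨hbc, hbd, hbe⟩, ⟨hcd, hce⟩, hde⟩ := h'
  rw [gir_num A D (a := a) (b := b) (c := c) (d := d) (by simp [hab, hac, had, hbc, hbd, hcd]),
    gir_num A D (a := a) (b := b) (c := c) (d := e) (by simp [hab, hac, hae, hbc, hbe, hce]),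
    gir_num A D (a := a) (b := b) (c := d) (d := e) (by simp [hab, had, hae, hbd, hbe, hde]),
    gir_num A D (a := a) (b := c) (c := d) (d := e) (by simp [hac, had, hae, hcd, hce, hde]),
    gir_num A D (a := b) (b := c) (c := d) (d := e) (by simp [hbc, hbd, hbe, hcd, hce, hde])]
  by_cases ha : a ∈ A <;> by_cases hb : b ∈ A <;> by_cases hc : c ∈ A <;> by_cases hd : d ∈ A <;>
    by_cases he : e ∈ A <;> simp only [mb, cl, ha, hb, hc, hd, he, if_true, if_false, true_and, false_and,
      not_true_eq_false, not_false_eq_true, and_false] <;> norm_num <;> omega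

end

variable {n : ℕ} (H : Finset (Finset (Fin n)))

/-- one if the four vertices form an edge -/
def Ed (a b c d : Fin n) : ℕ := if ({a, b, c, d} : Finset (Fin n)) ∈ H then 1 else 0

theorem ed_cases (a b c d : Fin n) : Ed H a b c d = 0 ∨ Ed H a b c d = 1 := by
  unfold Ed; split_ifs <;> simp

theorem ed_congr {a b c d a' b' c' d' : Fin n} (h : ({a, b, c, d} : Finset (Fin n)) = {a', b', c', d'}) :
    Ed H a b c d = Ed H a' b' c' d' := by
  unfold Ed; rw [h]

/-- the properties of the Giraud type which are used -/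
def Sev (v : Fin 7 → Fin n) : Prop := ∃ α : Fin 7 → ℕ, (∀ i, α i = 0 ∨ α i = 1) ∧
  (∀ i j k l, [i, j, k, l].Nodup → (α i + α j + α k + α l) % 2 = 1 → Ed H (v i) (v j) (v k) (v l) = 1) ∧
  (∀ i j k l, [i, j, k, l].Nodup → α i = α j → α i = α k → α i = α l → Ed H (v i) (v j) (v k) (v l) = 0) ∧
  (∀ i j k l m, [i, j, k, l, m].Nodup → 2 ∣ Ed H (v i) (v j) (v k) (v l) + Ed H (v i) (v j) (v k) (v m) +
    Ed H (v i) (v j) (v l) (v m) + Ed H (v i) (v k) (v l) (v m) + Ed H (v j) (v k) (v l) (v m))

theorem sev_of_type {v : Fin 7 → Fin n} (h : TypeG H v) : Sev H v := by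
  obtain ⟨A, D, hAD⟩ := h
  have key : ∀ i j k l : Fin 7, [i, j, k, l].Nodup →
      Ed H (v i) (v j) (v k) (v l) = if gir A D {i, j, k, l} then 1 else 0 := by
    intro i j k l hn
    have hc : ({i, j, k, l} : Finset (Fin 7)).card = 4 := by
      have := List.toFinset_card_of_nodup hn
      simpa using this
    have h1 := hAD _ hc
    have h2 : ({i, j, k, l} : Finset (Fin 7)).image v = {v i, v j, v k, v l} := by
      simp only [image_insert, image_singleton]
    rw [h2] at h1
    unfold Ed
    by_cases hg : gir A D {i, j, k, l}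
    · rw [if_pos hg, if_pos (h1.2 hg)]
    · rw [if_neg hg, if_neg fun h => hg (h1.1 h)]
  refine ⟨mb A, fun i => ?_, fun i j k l hn hp => ?_, fun i j k l hn h1 h2 h3 => ?_, fun i j k l m hn => ?_⟩
  · unfold mb; split_ifs <;> simp
  · rw [key _ _ _ _ hn, gir_num A D hn, if_pos hp]
  · rw [key _ _ _ _ hn, gir_num A D hn]
    unfold mb at h1 h2 h3
    by_cases ha : i ∈ A <;> by_cases hb : j ∈ A <;> by_cases hc : k ∈ A <;> by_cases hd : l ∈ A <;>
      simp_all [mb, cl]
  · have h' := hn
    simp only [List.nodup_cons, List.mem_cons, List.not_mem_nil, or_false, not_or, List.nodup_nil, and_true,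
      not_false_eq_true] at h'
    obtain ⟨⟨hab, hac, had, hae⟩, ⟨hbc, hbd, hbe⟩, ⟨hcd, hce⟩, hde⟩ := h'
    rw [key i j k l (by simp [hab, hac, had, hbc, hbd, hcd]), key i j k m (by simp [hab, hac, hae, hbc, hbe, hce]),
      key i j l m (by simp [hab, had, hae, hbd, hbe, hde]), key i k l m (by simp [hac, had, hae, hcd, hce, hde]),
      key j k l m (by simp [hbc, hbd, hbe, hcd, hce, hde])]
    exact five A D hn

end Pool.Agent.J6H5.St
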