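import Pool.Agent.J6H5.St.P2a

set_option autoImplicit false
set_option linter.unusedSectionVars false
set_option linter.unusedVariables false
set_option linter.unusedSimpArgs false

open Finset

namespace Pool.Agent.J6H5.St

variable {E : Fin 10 → Fin 10 → Fin 10 → Fin 10 → ℕ}

/-- the properties of the seven-vertex parts -/
def SevE (E : Fin 10 → Fin 10 → Fin 10 → Fin 10 → ℕ) (v : Fin 7 → Fin 10) : Prop := ∃ α : Fin 7 → ℕ,
  (∀ i, α i = 0 ∨ α i = 1) ∧
  (∀ i j k l, [i, j, k, l].Nodup → (α i + α j + α k + α l) % 2 = 1 → E (v i) (v j) (v k) (v l) = 1) ∧
  (∀ i j k l, [i, j, k, l].Nodup → α i = α j → α i = α k → α i = α l → E (v i) (v j) (v k) (v l) = 0) ∧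
  (∀ i j k l m, [i, j, k, l, m].Nodup → 2 ∣ E (v i) (v j) (v k) (v l) + E (v i) (v j) (v k) (v m) +
    E (v i) (v j) (v l) (v m) + E (v i) (v k) (v l) (v m) + E (v j) (v k) (v l) (v m))

theorem c7 (h01 : ∀ a b c d, E a b c d = 0 ∨ E a b c d = 1) {a b c d x y z : Fin 10} (hs : SevE E ![a, b, c, d, x, y, z]) (g : E a b c d = 0)
    (g0 : E a b c x = 1) (g1 : E a b c y = 1) (g2 : E a b c z = 1) (g3 : E a b d x = 1) (g4 : E a b d y = 1) (g5 : E a b d z = 1) (g6 : E a c d x = 1) (g7 : E a c d y = 1) (g8 : E a c d z = 1) (g9 : E b c d x = 1) (g10 : E b c d y = 1) (g11 : E b c d z = 1) :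
    2 ∣ E a x y z + E b x y z + E c x y z + E d x y z ∧ (E a x y z = 1 ∨ E b x y z = 1 ∨ E c x y z = 1 ∨ E d x y z = 1) := by
  obtain ⟨α, hα, P, Q, F⟩ := hs
  rcases hα 0 with h0 | h0
  · rcases hα 1 with h1 | h1
    · rcases hα 2 with h2 | h2
      · rcases hα 3 with h3 | h3
        · rcases hα 4 with h4 | h4
          · rcases hα 5 with h5 | h5
            · rcases hα 6 with h6 | h6
              · have r0 : E a b c x = 0 := Q 0 1 2 4 (by decide) (by rw [h0, h1]) (by rw [h0, h2]) (by rw [h0, h4])
                omega
              · have r0 : E a b c x = 0 := Q 0 1 2 4 (by decide) (by rw [h0, h1]) (by rw [h0, h2]) (by rw [h0, h4])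
                omega
            · rcases hα 6 with h6 | h6
              · have r0 : E a b c x = 0 := Q 0 1 2 4 (by decide) (by rw [h0, h1]) (by rw [h0, h2]) (by rw [h0, h4])
                omega
              · have r0 : E a b c x = 0 := Q 0 1 2 4 (by decide) (by rw [h0, h1]) (by rw [h0, h2]) (by rw [h0, h4])
                omega
          · rcases hα 5 with h5 | h5
            · rcases hα 6 with h6 | h6
              · have r0 : E a b c y = 0 := Q 0 1 2 5 (by decide) (by rw [h0, h1]) (by rw [h0, h2]) (by rw [h0, h5])
                omega
              · have r0 : E a b c y = 0 := Q 0 1 2 5 (by decide) (by rw [h0, h1]) (by rw [h0, h2]) (by rw [h0, h5])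
                omega
            · rcases hα 6 with h6 | h6
              · have r0 : E a b c z = 0 := Q 0 1 2 6 (by decide) (by rw [h0, h1]) (by rw [h0, h2]) (by rw [h0, h6])
                omega
              · have r0 : E a x y z = 1 := P 0 4 5 6 (by decide) (by rw [h0, h4, h5, h6])
                have r1 : E b x y z = 1 := P 1 4 5 6 (by decide) (by rw [h1, h4, h5, h6])
                have r2 : E c x y z = 1 := P 2 4 5 6 (by decide) (by rw [h2, h4, h5, h6])
                have r3 : E d x y z = 1 := P 3 4 5 6 (by decide) (by rw [h3, h4, h5, h6])
                omega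
        · have r0 : E a b c d = 1 := P 0 1 2 3 (by decide) (by rw [h0, h1, h2, h3])
          omega
      · rcases hα 3 with h3 | h3
        · have r0 : E a b c d = 1 := P 0 1 2 3 (by decide) (by rw [h0, h1, h2, h3])
          omega
        · rcases hα 4 with h4 | h4
          · rcases hα 5 with h5 | h5
            · rcases hα 6 with h6 | h6
              · have r0 : E a x y z = 0 := Q 0 4 5 6 (by decide) (by rw [h0, h4]) (by rw [h0, h5]) (by rw [h0, h6])
                have r1 : E b x y z = 0 := Q 1 4 5 6 (by decide) (by rw [h1, h4]) (by rw [h1, h5]) (by rw [h1, h6])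
                have r2 : E c x y z = 1 := P 2 4 5 6 (by decide) (by rw [h2, h4, h5, h6])
                have r3 : E d x y z = 1 := P 3 4 5 6 (by decide) (by rw [h3, h4, h5, h6])
                omega
              · have r0 : E a x y z = 1 := P 0 4 5 6 (by decide) (by rw [h0, h4, h5, h6])
                have r1 : E b x y z = 1 := P 1 4 5 6 (by decide) (by rw [h1, h4, h5, h6])
                have r2 : 2 ∣ E c d x y + E c d x z + E c d y z + E c x y z + E d x y z := F 2 3 4 5 6 (by decide)
                have r3 : E c d x z = 1 := P 2 3 4 6 (by decide) (by rw [h2, h3, h4, h6])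
                have r4 : E c d y z = 1 := P 2 3 5 6 (by decide) (by rw [h2, h3, h5, h6])
                have r5 : 2 ∣ E a c d x + E a c d y + E a c x y + E a d x y + E c d x y := F 0 2 3 4 5 (by decide)
                have r6 : E a c x y = 1 := P 0 2 4 5 (by decide) (by rw [h0, h2, h4, h5])
                have r7 : E a d x y = 1 := P 0 3 4 5 (by decide) (by rw [h0, h3, h4, h5])
                have r8 := h01 c x y z
                have r9 := h01 d x y z
                omega
            · rcases hα 6 with h6 | h6
              · have r0 : E a x y z = 1 := P 0 4 5 6 (by decide) (by rw [h0, h4, h5, h6])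
                have r1 : E b x y z = 1 := P 1 4 5 6 (by decide) (by rw [h1, h4, h5, h6])
                have r2 : 2 ∣ E c d x y + E c d x z + E c d y z + E c x y z + E d x y z := F 2 3 4 5 6 (by decide)
                have r3 : E c d x y = 1 := P 2 3 4 5 (by decide) (by rw [h2, h3, h4, h5])
                have r4 : E c d y z = 1 := P 2 3 5 6 (by decide) (by rw [h2, h3, h5, h6])
                have r5 : 2 ∣ E a c d x + E a c d z + E a c x z + E a d x z + E c d x z := F 0 2 3 4 6 (by decide)
                have r6 : E a c x z = 1 := P 0 2 4 6 (by decide) (by rw [h0, h2, h4, h6])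
                have r7 : E a d x z = 1 := P 0 3 4 6 (by decide) (by rw [h0, h3, h4, h6])
                have r8 := h01 c x y z
                have r9 := h01 d x y z
                omega
              · have r0 : E c x y z = 1 := P 2 4 5 6 (by decide) (by rw [h2, h4, h5, h6])
                have r1 : E d x y z = 1 := P 3 4 5 6 (by decide) (by rw [h3, h4, h5, h6])
                have r2 : 2 ∣ E a b x y + E a b x z + E a b y z + E a x y z + E b x y z := F 0 1 4 5 6 (by decide)
                have r3 : E a b x y = 1 := P 0 1 4 5 (by decide) (by rw [h0, h1, h4, h5])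
                have r4 : E a b x z = 1 := P 0 1 4 6 (by decide) (by rw [h0, h1, h4, h6])
                have r5 : 2 ∣ E a b c y + E a b c z + E a b y z + E a c y z + E b c y z := F 0 1 2 5 6 (by decide)
                have r6 : E a c y z = 1 := P 0 2 5 6 (by decide) (by rw [h0, h2, h5, h6])
                have r7 : E b c y z = 1 := P 1 2 5 6 (by decide) (by rw [h1, h2, h5, h6])
                have r8 := h01 a x y z
                have r9 := h01 b x y z
                omega
          · rcases hα 5 with h5 | h5
            · rcases hα 6 with h6 | h6
              · have r0 : E a x y z = 1 := P 0 4 5 6 (by decide) (by rw [h0, h4, h5, h6])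
                have r1 : E b x y z = 1 := P 1 4 5 6 (by decide) (by rw [h1, h4, h5, h6])
                have r2 : 2 ∣ E c d x y + E c d x z + E c d y z + E c x y z + E d x y z := F 2 3 4 5 6 (by decide)
                have r3 : E c d x y = 1 := P 2 3 4 5 (by decide) (by rw [h2, h3, h4, h5])
                have r4 : E c d x z = 1 := P 2 3 4 6 (by decide) (by rw [h2, h3, h4, h6])
                have r5 : 2 ∣ E a c d y + E a c d z + E a c y z + E a d y z + E c d y z := F 0 2 3 5 6 (by decide)
                have r6 : E a c y z = 1 := P 0 2 5 6 (by decide) (by rw [h0, h2, h5, h6])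
                have r7 : E a d y z = 1 := P 0 3 5 6 (by decide) (by rw [h0, h3, h5, h6])
                have r8 := h01 c x y z
                have r9 := h01 d x y z
                omega
              · have r0 : E c x y z = 1 := P 2 4 5 6 (by decide) (by rw [h2, h4, h5, h6])
                have r1 : E d x y z = 1 := P 3 4 5 6 (by decide) (by rw [h3, h4, h5, h6])
                have r2 : 2 ∣ E a b x y + E a b x z + E a b y z + E a x y z + E b x y z := F 0 1 4 5 6 (by decide)
                have r3 : E a b x y = 1 := P 0 1 4 5 (by decide) (by rw [h0, h1, h4, h5])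
                have r4 : E a b y z = 1 := P 0 1 5 6 (by decide) (by rw [h0, h1, h5, h6])
                have r5 : 2 ∣ E a b c x + E a b c z + E a b x z + E a c x z + E b c x z := F 0 1 2 4 6 (by decide)
                have r6 : E a c x z = 1 := P 0 2 4 6 (by decide) (by rw [h0, h2, h4, h6])
                have r7 : E b c x z = 1 := P 1 2 4 6 (by decide) (by rw [h1, h2, h4, h6])
                have r8 := h01 a x y z
                have r9 := h01 b x y z
                omega
            · rcases hα 6 with h6 | h6
              · have r0 : E c x y z = 1 := P 2 4 5 6 (by decide) (by rw [h2, h4, h5, h6])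
                have r1 : E d x y z = 1 := P 3 4 5 6 (by decide) (by rw [h3, h4, h5, h6])
                have r2 : 2 ∣ E a b x y + E a b x z + E a b y z + E a x y z + E b x y z := F 0 1 4 5 6 (by decide)
                have r3 : E a b x z = 1 := P 0 1 4 6 (by decide) (by rw [h0, h1, h4, h6])
                have r4 : E a b y z = 1 := P 0 1 5 6 (by decide) (by rw [h0, h1, h5, h6])
                have r5 : 2 ∣ E a b c x + E a b c y + E a b x y + E a c x y + E b c x y := F 0 1 2 4 5 (by decide)
                have r6 : E a c x y = 1 := P 0 2 4 5 (by decide) (by rw [h0, h2, h4, h5])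
                have r7 : E b c x y = 1 := P 1 2 4 5 (by decide) (by rw [h1, h2, h4, h5])
                have r8 := h01 a x y z
                have r9 := h01 b x y z
                omega
              · have r0 : E a x y z = 1 := P 0 4 5 6 (by decide) (by rw [h0, h4, h5, h6])
                have r1 : E b x y z = 1 := P 1 4 5 6 (by decide) (by rw [h1, h4, h5, h6])
                have r2 : E c x y z = 0 := Q 2 4 5 6 (by decide) (by rw [h2, h4]) (by rw [h2, h5]) (by rw [h2, h6])
                have r3 : E d x y z = 0 := Q 3 4 5 6 (by decide) (by rw [h3, h4]) (by rw [h3, h5]) (by rw [h3, h6])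
                omega
    · rcases hα 2 with h2 | h2
      · rcases hα 3 with h3 | h3
        · have r0 : E a b c d = 1 := P 0 1 2 3 (by decide) (by rw [h0, h1, h2, h3])
          omega
        · rcases hα 4 with h4 | h4
          · rcases hα 5 with h5 | h5
            · rcases hα 6 with h6 | h6
              · have r0 : E a x y z = 0 := Q 0 4 5 6 (by decide) (by rw [h0, h4]) (by rw [h0, h5]) (by rw [h0, h6])
                have r1 : E b x y z = 1 := P 1 4 5 6 (by decide) (by rw [h1, h4, h5, h6])
                have r2 : E c x y z = 0 := Q 2 4 5 6 (by decide) (by rw [h2, h4]) (by rw [h2, h5]) (by rw [h2, h6])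
                have r3 : E d x y z = 1 := P 3 4 5 6 (by decide) (by rw [h3, h4, h5, h6])
                omega
              · have r0 : E a x y z = 1 := P 0 4 5 6 (by decide) (by rw [h0, h4, h5, h6])
                have r1 : E c x y z = 1 := P 2 4 5 6 (by decide) (by rw [h2, h4, h5, h6])
                have r2 : 2 ∣ E b d x y + E b d x z + E b d y z + E b x y z + E d x y z := F 1 3 4 5 6 (by decide)
                have r3 : E b d x z = 1 := P 1 3 4 6 (by decide) (by rw [h1, h3, h4, h6])
                have r4 : E b d y z = 1 := P 1 3 5 6 (by decide) (by rw [h1, h3, h5, h6])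
                have r5 : 2 ∣ E a b d x + E a b d y + E a b x y + E a d x y + E b d x y := F 0 1 3 4 5 (by decide)
                have r6 : E a b x y = 1 := P 0 1 4 5 (by decide) (by rw [h0, h1, h4, h5])
                have r7 : E a d x y = 1 := P 0 3 4 5 (by decide) (by rw [h0, h3, h4, h5])
                have r8 := h01 b x y z
                have r9 := h01 d x y z
                omega
            · rcases hα 6 with h6 | h6
              · have r0 : E a x y z = 1 := P 0 4 5 6 (by decide) (by rw [h0, h4, h5, h6])
                have r1 : E c x y z = 1 := P 2 4 5 6 (by decide) (by rw [h2, h4, h5, h6])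
                have r2 : 2 ∣ E b d x y + E b d x z + E b d y z + E b x y z + E d x y z := F 1 3 4 5 6 (by decide)
                have r3 : E b d x y = 1 := P 1 3 4 5 (by decide) (by rw [h1, h3, h4, h5])
                have r4 : E b d y z = 1 := P 1 3 5 6 (by decide) (by rw [h1, h3, h5, h6])
                have r5 : 2 ∣ E a b d x + E a b d z + E a b x z + E a d x z + E b d x z := F 0 1 3 4 6 (by decide)
                have r6 : E a b x z = 1 := P 0 1 4 6 (by decide) (by rw [h0, h1, h4, h6])
                have r7 : E a d x z = 1 := P 0 3 4 6 (by decide) (by rw [h0, h3, h4, h6])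
                have r8 := h01 b x y z
                have r9 := h01 d x y z
                omega
              · have r0 : E b x y z = 1 := P 1 4 5 6 (by decide) (by rw [h1, h4, h5, h6])
                have r1 : E d x y z = 1 := P 3 4 5 6 (by decide) (by rw [h3, h4, h5, h6])
                have r2 : 2 ∣ E a c x y + E a c x z + E a c y z + E a x y z + E c x y z := F 0 2 4 5 6 (by decide)
                have r3 : E a c x y = 1 := P 0 2 4 5 (by decide) (by rw [h0, h2, h4, h5])
                have r4 : E a c x z = 1 := P 0 2 4 6 (by decide) (by rw [h0, h2, h4, h6])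
                have r5 : 2 ∣ E a b c y + E a b c z + E a b y z + E a c y z + E b c y z := F 0 1 2 5 6 (by decide)
                have r6 : E a b y z = 1 := P 0 1 5 6 (by decide) (by rw [h0, h1, h5, h6])
                have r7 : E b c y z = 1 := P 1 2 5 6 (by decide) (by rw [h1, h2, h5, h6])
                have r8 := h01 a x y z
                have r9 := h01 c x y z
                omega
          · rcases hα 5 with h5 | h5
            · rcases hα 6 with h6 | h6
              · have r0 : E a x y z = 1 := P 0 4 5 6 (by decide) (by rw [h0, h4, h5, h6])
                have r1 : E c x y z = 1 := P 2 4 5 6 (by decide) (by rw [h2, h4, h5, h6])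
                have r2 : 2 ∣ E b d x y + E b d x z + E b d y z + E b x y z + E d x y z := F 1 3 4 5 6 (by decide)
                have r3 : E b d x y = 1 := P 1 3 4 5 (by decide) (by rw [h1, h3, h4, h5])
                have r4 : E b d x z = 1 := P 1 3 4 6 (by decide) (by rw [h1, h3, h4, h6])
                have r5 : 2 ∣ E a b d y + E a b d z + E a b y z + E a d y z + E b d y z := F 0 1 3 5 6 (by decide)
                have r6 : E a b y z = 1 := P 0 1 5 6 (by decide) (by rw [h0, h1, h5, h6])
                have r7 : E a d y z = 1 := P 0 3 5 6 (by decide) (by rw [h0, h3, h5, h6])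
                have r8 := h01 b x y z
                have r9 := h01 d x y z
                omega
              · have r0 : E b x y z = 1 := P 1 4 5 6 (by decide) (by rw [h1, h4, h5, h6])
                have r1 : E d x y z = 1 := P 3 4 5 6 (by decide) (by rw [h3, h4, h5, h6])
                have r2 : 2 ∣ E a c x y + E a c x z + E a c y z + E a x y z + E c x y z := F 0 2 4 5 6 (by decide)
                have r3 : E a c x y = 1 := P 0 2 4 5 (by decide) (by rw [h0, h2, h4, h5])
                have r4 : E a c y z = 1 := P 0 2 5 6 (by decide) (by rw [h0, h2, h5, h6])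
                have r5 : 2 ∣ E a b c x + E a b c z + E a b x z + E a c x z + E b c x z := F 0 1 2 4 6 (by decide)
                have r6 : E a b x z = 1 := P 0 1 4 6 (by decide) (by rw [h0, h1, h4, h6])
                have r7 : E b c x z = 1 := P 1 2 4 6 (by decide) (by rw [h1, h2, h4, h6])
                have r8 := h01 a x y z
                have r9 := h01 c x y z
                omega
            · rcases hα 6 with h6 | h6
              · have r0 : E b x y z = 1 := P 1 4 5 6 (by decide) (by rw [h1, h4, h5, h6])
                have r1 : E d x y z = 1 := P 3 4 5 6 (by decide) (by rw [h3, h4, h5, h6])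
                have r2 : 2 ∣ E a c x y + E a c x z + E a c y z + E a x y z + E c x y z := F 0 2 4 5 6 (by decide)
                have r3 : E a c x z = 1 := P 0 2 4 6 (by decide) (by rw [h0, h2, h4, h6])
                have r4 : E a c y z = 1 := P 0 2 5 6 (by decide) (by rw [h0, h2, h5, h6])
                have r5 : 2 ∣ E a b c x + E a b c y + E a b x y + E a c x y + E b c x y := F 0 1 2 4 5 (by decide)
                have r6 : E a b x y = 1 := P 0 1 4 5 (by decide) (by rw [h0, h1, h4, h5])
                have r7 : E b c x y = 1 := P 1 2 4 5 (by decide) (by rw [h1, h2, h4, h5])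
                have r8 := h01 a x y z
                have r9 := h01 c x y z
                omega
              · have r0 : E a x y z = 1 := P 0 4 5 6 (by decide) (by rw [h0, h4, h5, h6])
                have r1 : E b x y z = 0 := Q 1 4 5 6 (by decide) (by rw [h1, h4]) (by rw [h1, h5]) (by rw [h1, h6])
                have r2 : E c x y z = 1 := P 2 4 5 6 (by decide) (by rw [h2, h4, h5, h6])
                have r3 : E d x y z = 0 := Q 3 4 5 6 (by decide) (by rw [h3, h4]) (by rw [h3, h5]) (by rw [h3, h6])
                omega
      · rcases hα 3 with h3 | h3
        · rcases hα 4 with h4 | h4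
          · rcases hα 5 with h5 | h5
            · rcases hα 6 with h6 | h6
              · have r0 : E a x y z = 0 := Q 0 4 5 6 (by decide) (by rw [h0, h4]) (by rw [h0, h5]) (by rw [h0, h6])
                have r1 : E b x y z = 1 := P 1 4 5 6 (by decide) (by rw [h1, h4, h5, h6])
                have r2 : E c x y z = 1 := P 2 4 5 6 (by decide) (by rw [h2, h4, h5, h6])
                have r3 : E d x y z = 0 := Q 3 4 5 6 (by decide) (by rw [h3, h4]) (by rw [h3, h5]) (by rw [h3, h6])
                omega
              · have r0 : E a x y z = 1 := P 0 4 5 6 (by decide) (by rw [h0, h4, h5, h6])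
                have r1 : E d x y z = 1 := P 3 4 5 6 (by decide) (by rw [h3, h4, h5, h6])
                have r2 : 2 ∣ E b c x y + E b c x z + E b c y z + E b x y z + E c x y z := F 1 2 4 5 6 (by decide)
                have r3 : E b c x z = 1 := P 1 2 4 6 (by decide) (by rw [h1, h2, h4, h6])
                have r4 : E b c y z = 1 := P 1 2 5 6 (by decide) (by rw [h1, h2, h5, h6])
                have r5 : 2 ∣ E a b c x + E a b c y + E a b x y + E a c x y + E b c x y := F 0 1 2 4 5 (by decide)
                have r6 : E a b x y = 1 := P 0 1 4 5 (by decide) (by rw [h0, h1, h4, h5])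
                have r7 : E a c x y = 1 := P 0 2 4 5 (by decide) (by rw [h0, h2, h4, h5])
                have r8 := h01 b x y z
                have r9 := h01 c x y z
                omega
            · rcases hα 6 with h6 | h6
              · have r0 : E a x y z = 1 := P 0 4 5 6 (by decide) (by rw [h0, h4, h5, h6])
                have r1 : E d x y z = 1 := P 3 4 5 6 (by decide) (by rw [h3, h4, h5, h6])
                have r2 : 2 ∣ E b c x y + E b c x z + E b c y z + E b x y z + E c x y z := F 1 2 4 5 6 (by decide)
                have r3 : E b c x y = 1 := P 1 2 4 5 (by decide) (by rw [h1, h2, h4, h5])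
                have r4 : E b c y z = 1 := P 1 2 5 6 (by decide) (by rw [h1, h2, h5, h6])
                have r5 : 2 ∣ E a b c x + E a b c z + E a b x z + E a c x z + E b c x z := F 0 1 2 4 6 (by decide)
                have r6 : E a b x z = 1 := P 0 1 4 6 (by decide) (by rw [h0, h1, h4, h6])
                have r7 : E a c x z = 1 := P 0 2 4 6 (by decide) (by rw [h0, h2, h4, h6])
                have r8 := h01 b x y z
                have r9 := h01 c x y z
                omega
              · have r0 : E b x y z = 1 := P 1 4 5 6 (by decide) (by rw [h1, h4, h5, h6])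
                have r1 : E c x y z = 1 := P 2 4 5 6 (by decide) (by rw [h2, h4, h5, h6])
                have r2 : 2 ∣ E a d x y + E a d x z + E a d y z + E a x y z + E d x y z := F 0 3 4 5 6 (by decide)
                have r3 : E a d x y = 1 := P 0 3 4 5 (by decide) (by rw [h0, h3, h4, h5])
                have r4 : E a d x z = 1 := P 0 3 4 6 (by decide) (by rw [h0, h3, h4, h6])
                have r5 : 2 ∣ E a b d y + E a b d z + E a b y z + E a d y z + E b d y z := F 0 1 3 5 6 (by decide)
                have r6 : E a b y z = 1 := P 0 1 5 6 (by decide) (by rw [h0, h1, h5, h6])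
                have r7 : E b d y z = 1 := P 1 3 5 6 (by decide) (by rw [h1, h3, h5, h6])
                have r8 := h01 a x y z
                have r9 := h01 d x y z
                omega
          · rcases hα 5 with h5 | h5
            · rcases hα 6 with h6 | h6
              · have r0 : E a x y z = 1 := P 0 4 5 6 (by decide) (by rw [h0, h4, h5, h6])
                have r1 : E d x y z = 1 := P 3 4 5 6 (by decide) (by rw [h3, h4, h5, h6])
                have r2 : 2 ∣ E b c x y + E b c x z + E b c y z + E b x y z + E c x y z := F 1 2 4 5 6 (by decide)
                have r3 : E b c x y = 1 := P 1 2 4 5 (by decide) (by rw [h1, h2, h4, h5])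
                have r4 : E b c x z = 1 := P 1 2 4 6 (by decide) (by rw [h1, h2, h4, h6])
                have r5 : 2 ∣ E a b c y + E a b c z + E a b y z + E a c y z + E b c y z := F 0 1 2 5 6 (by decide)
                have r6 : E a b y z = 1 := P 0 1 5 6 (by decide) (by rw [h0, h1, h5, h6])
                have r7 : E a c y z = 1 := P 0 2 5 6 (by decide) (by rw [h0, h2, h5, h6])
                have r8 := h01 b x y z
                have r9 := h01 c x y z
                omega
              · have r0 : E b x y z = 1 := P 1 4 5 6 (by decide) (by rw [h1, h4, h5, h6])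
                have r1 : E c x y z = 1 := P 2 4 5 6 (by decide) (by rw [h2, h4, h5, h6])
                have r2 : 2 ∣ E a d x y + E a d x z + E a d y z + E a x y z + E d x y z := F 0 3 4 5 6 (by decide)
                have r3 : E a d x y = 1 := P 0 3 4 5 (by decide) (by rw [h0, h3, h4, h5])
                have r4 : E a d y z = 1 := P 0 3 5 6 (by decide) (by rw [h0, h3, h5, h6])
                have r5 : 2 ∣ E a b d x + E a b d z + E a b x z + E a d x z + E b d x z := F 0 1 3 4 6 (by decide)
                have r6 : E a b x z = 1 := P 0 1 4 6 (by decide) (by rw [h0, h1, h4, h6])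
                have r7 : E b d x z = 1 := P 1 3 4 6 (by decide) (by rw [h1, h3, h4, h6])
                have r8 := h01 a x y z
                have r9 := h01 d x y z
                omega
            · rcases hα 6 with h6 | h6
              · have r0 : E b x y z = 1 := P 1 4 5 6 (by decide) (by rw [h1, h4, h5, h6])
                have r1 : E c x y z = 1 := P 2 4 5 6 (by decide) (by rw [h2, h4, h5, h6])
                have r2 : 2 ∣ E a d x y + E a d x z + E a d y z + E a x y z + E d x y z := F 0 3 4 5 6 (by decide)
                have r3 : E a d x z = 1 := P 0 3 4 6 (by decide) (by rw [h0, h3, h4, h6])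
                have r4 : E a d y z = 1 := P 0 3 5 6 (by decide) (by rw [h0, h3, h5, h6])
                have r5 : 2 ∣ E a b d x + E a b d y + E a b x y + E a d x y + E b d x y := F 0 1 3 4 5 (by decide)
                have r6 : E a b x y = 1 := P 0 1 4 5 (by decide) (by rw [h0, h1, h4, h5])
                have r7 : E b d x y = 1 := P 1 3 4 5 (by decide) (by rw [h1, h3, h4, h5])
                have r8 := h01 a x y z
                have r9 := h01 d x y z
                omega
              · have r0 : E a x y z = 1 := P 0 4 5 6 (by decide) (by rw [h0, h4, h5, h6])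
                have r1 : E b x y z = 0 := Q 1 4 5 6 (by decide) (by rw [h1, h4]) (by rw [h1, h5]) (by rw [h1, h6])
                have r2 : E c x y z = 0 := Q 2 4 5 6 (by decide) (by rw [h2, h4]) (by rw [h2, h5]) (by rw [h2, h6])
                have r3 : E d x y z = 1 := P 3 4 5 6 (by decide) (by rw [h3, h4, h5, h6])
                omega
        · have r0 : E a b c d = 1 := P 0 1 2 3 (by decide) (by rw [h0, h1, h2, h3])
          omega
  · rcases hα 1 with h1 | h1
    · rcases hα 2 with h2 | h2
      · rcases hα 3 with h3 | h3
        · have r0 : E a b c d = 1 := P 0 1 2 3 (by decide) (by rw [h0, h1, h2, h3])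
          omega
        · rcases hα 4 with h4 | h4
          · rcases hα 5 with h5 | h5
            · rcases hα 6 with h6 | h6
              · have r0 : E a x y z = 1 := P 0 4 5 6 (by decide) (by rw [h0, h4, h5, h6])
                have r1 : E b x y z = 0 := Q 1 4 5 6 (by decide) (by rw [h1, h4]) (by rw [h1, h5]) (by rw [h1, h6])
                have r2 : E c x y z = 0 := Q 2 4 5 6 (by decide) (by rw [h2, h4]) (by rw [h2, h5]) (by rw [h2, h6])
                have r3 : E d x y z = 1 := P 3 4 5 6 (by decide) (by rw [h3, h4, h5, h6])
                omega
              · have r0 : E b x y z = 1 := P 1 4 5 6 (by decide) (by rw [h1, h4, h5, h6])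
                have r1 : E c x y z = 1 := P 2 4 5 6 (by decide) (by rw [h2, h4, h5, h6])
                have r2 : 2 ∣ E a d x y + E a d x z + E a d y z + E a x y z + E d x y z := F 0 3 4 5 6 (by decide)
                have r3 : E a d x z = 1 := P 0 3 4 6 (by decide) (by rw [h0, h3, h4, h6])
                have r4 : E a d y z = 1 := P 0 3 5 6 (by decide) (by rw [h0, h3, h5, h6])
                have r5 : 2 ∣ E a b d x + E a b d y + E a b x y + E a d x y + E b d x y := F 0 1 3 4 5 (by decide)
                have r6 : E a b x y = 1 := P 0 1 4 5 (by decide) (by rw [h0, h1, h4, h5])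
                have r7 : E b d x y = 1 := P 1 3 4 5 (by decide) (by rw [h1, h3, h4, h5])
                have r8 := h01 a x y z
                have r9 := h01 d x y z
                omega
            · rcases hα 6 with h6 | h6
              · have r0 : E b x y z = 1 := P 1 4 5 6 (by decide) (by rw [h1, h4, h5, h6])
                have r1 : E c x y z = 1 := P 2 4 5 6 (by decide) (by rw [h2, h4, h5, h6])
                have r2 : 2 ∣ E a d x y + E a d x z + E a d y z + E a x y z + E d x y z := F 0 3 4 5 6 (by decide)
                have r3 : E a d x y = 1 := P 0 3 4 5 (by decide) (by rw [h0, h3, h4, h5])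
                have r4 : E a d y z = 1 := P 0 3 5 6 (by decide) (by rw [h0, h3, h5, h6])
                have r5 : 2 ∣ E a b d x + E a b d z + E a b x z + E a d x z + E b d x z := F 0 1 3 4 6 (by decide)
                have r6 : E a b x z = 1 := P 0 1 4 6 (by decide) (by rw [h0, h1, h4, h6])
                have r7 : E b d x z = 1 := P 1 3 4 6 (by decide) (by rw [h1, h3, h4, h6])
                have r8 := h01 a x y z
                have r9 := h01 d x y z
                omega
              · have r0 : E a x y z = 1 := P 0 4 5 6 (by decide) (by rw [h0, h4, h5, h6])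
                have r1 : E d x y z = 1 := P 3 4 5 6 (by decide) (by rw [h3, h4, h5, h6])
                have r2 : 2 ∣ E b c x y + E b c x z + E b c y z + E b x y z + E c x y z := F 1 2 4 5 6 (by decide)
                have r3 : E b c x y = 1 := P 1 2 4 5 (by decide) (by rw [h1, h2, h4, h5])
                have r4 : E b c x z = 1 := P 1 2 4 6 (by decide) (by rw [h1, h2, h4, h6])
                have r5 : 2 ∣ E a b c y + E a b c z + E a b y z + E a c y z + E b c y z := F 0 1 2 5 6 (by decide)
                have r6 : E a b y z = 1 := P 0 1 5 6 (by decide) (by rw [h0, h1, h5, h6])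
                have r7 : E a c y z = 1 := P 0 2 5 6 (by decide) (by rw [h0, h2, h5, h6])
                have r8 := h01 b x y z
                have r9 := h01 c x y z
                omega
          · rcases hα 5 with h5 | h5
            · rcases hα 6 with h6 | h6
              · have r0 : E b x y z = 1 := P 1 4 5 6 (by decide) (by rw [h1, h4, h5, h6])
                have r1 : E c x y z = 1 := P 2 4 5 6 (by decide) (by rw [h2, h4, h5, h6])
                have r2 : 2 ∣ E a d x y + E a d x z + E a d y z + E a x y z + E d x y z := F 0 3 4 5 6 (by decide)
                have r3 : E a d x y = 1 := P 0 3 4 5 (by decide) (by rw [h0, h3, h4, h5])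
                have r4 : E a d x z = 1 := P 0 3 4 6 (by decide) (by rw [h0, h3, h4, h6])
                have r5 : 2 ∣ E a b d y + E a b d z + E a b y z + E a d y z + E b d y z := F 0 1 3 5 6 (by decide)
                have r6 : E a b y z = 1 := P 0 1 5 6 (by decide) (by rw [h0, h1, h5, h6])
                have r7 : E b d y z = 1 := P 1 3 5 6 (by decide) (by rw [h1, h3, h5, h6])
                have r8 := h01 a x y z
                have r9 := h01 d x y z
                omega
              · have r0 : E a x y z = 1 := P 0 4 5 6 (by decide) (by rw [h0, h4, h5, h6])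
                have r1 : E d x y z = 1 := P 3 4 5 6 (by decide) (by rw [h3, h4, h5, h6])
                have r2 : 2 ∣ E b c x y + E b c x z + E b c y z + E b x y z + E c x y z := F 1 2 4 5 6 (by decide)
                have r3 : E b c x y = 1 := P 1 2 4 5 (by decide) (by rw [h1, h2, h4, h5])
                have r4 : E b c y z = 1 := P 1 2 5 6 (by decide) (by rw [h1, h2, h5, h6])
                have r5 : 2 ∣ E a b c x + E a b c z + E a b x z + E a c x z + E b c x z := F 0 1 2 4 6 (by decide)
                have r6 : E a b x z = 1 := P 0 1 4 6 (by decide) (by rw [h0, h1, h4, h6])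
                have r7 : E a c x z = 1 := P 0 2 4 6 (by decide) (by rw [h0, h2, h4, h6])
                have r8 := h01 b x y z
                have r9 := h01 c x y z
                omega
            · rcases hα 6 with h6 | h6
              · have r0 : E a x y z = 1 := P 0 4 5 6 (by decide) (by rw [h0, h4, h5, h6])
                have r1 : E d x y z = 1 := P 3 4 5 6 (by decide) (by rw [h3, h4, h5, h6])
                have r2 : 2 ∣ E b c x y + E b c x z + E b c y z + E b x y z + E c x y z := F 1 2 4 5 6 (by decide)
                have r3 : E b c x z = 1 := P 1 2 4 6 (by decide) (by rw [h1, h2, h4, h6])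
                have r4 : E b c y z = 1 := P 1 2 5 6 (by decide) (by rw [h1, h2, h5, h6])
                have r5 : 2 ∣ E a b c x + E a b c y + E a b x y + E a c x y + E b c x y := F 0 1 2 4 5 (by decide)
                have r6 : E a b x y = 1 := P 0 1 4 5 (by decide) (by rw [h0, h1, h4, h5])
                have r7 : E a c x y = 1 := P 0 2 4 5 (by decide) (by rw [h0, h2, h4, h5])
                have r8 := h01 b x y z
                have r9 := h01 c x y z
                omega
              · have r0 : E a x y z = 0 := Q 0 4 5 6 (by decide) (by rw [h0, h4]) (by rw [h0, h5]) (by rw [h0, h6])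
                have r1 : E b x y z = 1 := P 1 4 5 6 (by decide) (by rw [h1, h4, h5, h6])
                have r2 : E c x y z = 1 := P 2 4 5 6 (by decide) (by rw [h2, h4, h5, h6])
                have r3 : E d x y z = 0 := Q 3 4 5 6 (by decide) (by rw [h3, h4]) (by rw [h3, h5]) (by rw [h3, h6])
                omega
      · rcases hα 3 with h3 | h3
        · rcases hα 4 with h4 | h4
          · rcases hα 5 with h5 | h5
            · rcases hα 6 with h6 | h6
              · have r0 : E a x y z = 1 := P 0 4 5 6 (by decide) (by rw [h0, h4, h5, h6])
                have r1 : E b x y z = 0 := Q 1 4 5 6 (by decide) (by rw [h1, h4]) (by rw [h1, h5]) (by rw [h1, h6])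
                have r2 : E c x y z = 1 := P 2 4 5 6 (by decide) (by rw [h2, h4, h5, h6])
                have r3 : E d x y z = 0 := Q 3 4 5 6 (by decide) (by rw [h3, h4]) (by rw [h3, h5]) (by rw [h3, h6])
                omega
              · have r0 : E b x y z = 1 := P 1 4 5 6 (by decide) (by rw [h1, h4, h5, h6])
                have r1 : E d x y z = 1 := P 3 4 5 6 (by decide) (by rw [h3, h4, h5, h6])
                have r2 : 2 ∣ E a c x y + E a c x z + E a c y z + E a x y z + E c x y z := F 0 2 4 5 6 (by decide)
                have r3 : E a c x z = 1 := P 0 2 4 6 (by decide) (by rw [h0, h2, h4, h6])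
                have r4 : E a c y z = 1 := P 0 2 5 6 (by decide) (by rw [h0, h2, h5, h6])
                have r5 : 2 ∣ E a b c x + E a b c y + E a b x y + E a c x y + E b c x y := F 0 1 2 4 5 (by decide)
                have r6 : E a b x y = 1 := P 0 1 4 5 (by decide) (by rw [h0, h1, h4, h5])
                have r7 : E b c x y = 1 := P 1 2 4 5 (by decide) (by rw [h1, h2, h4, h5])
                have r8 := h01 a x y z
                have r9 := h01 c x y z
                omega
            · rcases hα 6 with h6 | h6
              · have r0 : E b x y z = 1 := P 1 4 5 6 (by decide) (by rw [h1, h4, h5, h6])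
                have r1 : E d x y z = 1 := P 3 4 5 6 (by decide) (by rw [h3, h4, h5, h6])
                have r2 : 2 ∣ E a c x y + E a c x z + E a c y z + E a x y z + E c x y z := F 0 2 4 5 6 (by decide)
                have r3 : E a c x y = 1 := P 0 2 4 5 (by decide) (by rw [h0, h2, h4, h5])
                have r4 : E a c y z = 1 := P 0 2 5 6 (by decide) (by rw [h0, h2, h5, h6])
                have r5 : 2 ∣ E a b c x + E a b c z + E a b x z + E a c x z + E b c x z := F 0 1 2 4 6 (by decide)
                have r6 : E a b x z = 1 := P 0 1 4 6 (by decide) (by rw [h0, h1, h4, h6])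
                have r7 : E b c x z = 1 := P 1 2 4 6 (by decide) (by rw [h1, h2, h4, h6])
                have r8 := h01 a x y z
                have r9 := h01 c x y z
                omega
              · have r0 : E a x y z = 1 := P 0 4 5 6 (by decide) (by rw [h0, h4, h5, h6])
                have r1 : E c x y z = 1 := P 2 4 5 6 (by decide) (by rw [h2, h4, h5, h6])
                have r2 : 2 ∣ E b d x y + E b d x z + E b d y z + E b x y z + E d x y z := F 1 3 4 5 6 (by decide)
                have r3 : E b d x y = 1 := P 1 3 4 5 (by decide) (by rw [h1, h3, h4, h5])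
                have r4 : E b d x z = 1 := P 1 3 4 6 (by decide) (by rw [h1, h3, h4, h6])
                have r5 : 2 ∣ E a b d y + E a b d z + E a b y z + E a d y z + E b d y z := F 0 1 3 5 6 (by decide)
                have r6 : E a b y z = 1 := P 0 1 5 6 (by decide) (by rw [h0, h1, h5, h6])
                have r7 : E a d y z = 1 := P 0 3 5 6 (by decide) (by rw [h0, h3, h5, h6])
                have r8 := h01 b x y z
                have r9 := h01 d x y z
                omega
          · rcases hα 5 with h5 | h5
            · rcases hα 6 with h6 | h6
              · have r0 : E b x y z = 1 := P 1 4 5 6 (by decide) (by rw [h1, h4, h5, h6])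
                have r1 : E d x y z = 1 := P 3 4 5 6 (by decide) (by rw [h3, h4, h5, h6])
                have r2 : 2 ∣ E a c x y + E a c x z + E a c y z + E a x y z + E c x y z := F 0 2 4 5 6 (by decide)
                have r3 : E a c x y = 1 := P 0 2 4 5 (by decide) (by rw [h0, h2, h4, h5])
                have r4 : E a c x z = 1 := P 0 2 4 6 (by decide) (by rw [h0, h2, h4, h6])
                have r5 : 2 ∣ E a b c y + E a b c z + E a b y z + E a c y z + E b c y z := F 0 1 2 5 6 (by decide)
                have r6 : E a b y z = 1 := P 0 1 5 6 (by decide) (by rw [h0, h1, h5, h6])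
                have r7 : E b c y z = 1 := P 1 2 5 6 (by decide) (by rw [h1, h2, h5, h6])
                have r8 := h01 a x y z
                have r9 := h01 c x y z
                omega
              · have r0 : E a x y z = 1 := P 0 4 5 6 (by decide) (by rw [h0, h4, h5, h6])
                have r1 : E c x y z = 1 := P 2 4 5 6 (by decide) (by rw [h2, h4, h5, h6])
                have r2 : 2 ∣ E b d x y + E b d x z + E b d y z + E b x y z + E d x y z := F 1 3 4 5 6 (by decide)
                have r3 : E b d x y = 1 := P 1 3 4 5 (by decide) (by rw [h1, h3, h4, h5])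
                have r4 : E b d y z = 1 := P 1 3 5 6 (by decide) (by rw [h1, h3, h5, h6])
                have r5 : 2 ∣ E a b d x + E a b d z + E a b x z + E a d x z + E b d x z := F 0 1 3 4 6 (by decide)
                have r6 : E a b x z = 1 := P 0 1 4 6 (by decide) (by rw [h0, h1, h4, h6])
                have r7 : E a d x z = 1 := P 0 3 4 6 (by decide) (by rw [h0, h3, h4, h6])
                have r8 := h01 b x y z
                have r9 := h01 d x y z
                omega
            · rcases hα 6 with h6 | h6
              · have r0 : E a x y z = 1 := P 0 4 5 6 (by decide) (by rw [h0, h4, h5, h6])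
                have r1 : E c x y z = 1 := P 2 4 5 6 (by decide) (by rw [h2, h4, h5, h6])
                have r2 : 2 ∣ E b d x y + E b d x z + E b d y z + E b x y z + E d x y z := F 1 3 4 5 6 (by decide)
                have r3 : E b d x z = 1 := P 1 3 4 6 (by decide) (by rw [h1, h3, h4, h6])
                have r4 : E b d y z = 1 := P 1 3 5 6 (by decide) (by rw [h1, h3, h5, h6])
                have r5 : 2 ∣ E a b d x + E a b d y + E a b x y + E a d x y + E b d x y := F 0 1 3 4 5 (by decide)
                have r6 : E a b x y = 1 := P 0 1 4 5 (by decide) (by rw [h0, h1, h4, h5])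
                have r7 : E a d x y = 1 := P 0 3 4 5 (by decide) (by rw [h0, h3, h4, h5])
                have r8 := h01 b x y z
                have r9 := h01 d x y z
                omega
              · have r0 : E a x y z = 0 := Q 0 4 5 6 (by decide) (by rw [h0, h4]) (by rw [h0, h5]) (by rw [h0, h6])
                have r1 : E b x y z = 1 := P 1 4 5 6 (by decide) (by rw [h1, h4, h5, h6])
                have r2 : E c x y z = 0 := Q 2 4 5 6 (by decide) (by rw [h2, h4]) (by rw [h2, h5]) (by rw [h2, h6])
                have r3 : E d x y z = 1 := P 3 4 5 6 (by decide) (by rw [h3, h4, h5, h6])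
                omega
        · have r0 : E a b c d = 1 := P 0 1 2 3 (by decide) (by rw [h0, h1, h2, h3])
          omega
    · rcases hα 2 with h2 | h2
      · rcases hα 3 with h3 | h3
        · rcases hα 4 with h4 | h4
          · rcases hα 5 with h5 | h5
            · rcases hα 6 with h6 | h6
              · have r0 : E a x y z = 1 := P 0 4 5 6 (by decide) (by rw [h0, h4, h5, h6])
                have r1 : E b x y z = 1 := P 1 4 5 6 (by decide) (by rw [h1, h4, h5, h6])
                have r2 : E c x y z = 0 := Q 2 4 5 6 (by decide) (by rw [h2, h4]) (by rw [h2, h5]) (by rw [h2, h6])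
                have r3 : E d x y z = 0 := Q 3 4 5 6 (by decide) (by rw [h3, h4]) (by rw [h3, h5]) (by rw [h3, h6])
                omega
              · have r0 : E c x y z = 1 := P 2 4 5 6 (by decide) (by rw [h2, h4, h5, h6])
                have r1 : E d x y z = 1 := P 3 4 5 6 (by decide) (by rw [h3, h4, h5, h6])
                have r2 : 2 ∣ E a b x y + E a b x z + E a b y z + E a x y z + E b x y z := F 0 1 4 5 6 (by decide)
                have r3 : E a b x z = 1 := P 0 1 4 6 (by decide) (by rw [h0, h1, h4, h6])
                have r4 : E a b y z = 1 := P 0 1 5 6 (by decide) (by rw [h0, h1, h5, h6])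
                have r5 : 2 ∣ E a b c x + E a b c y + E a b x y + E a c x y + E b c x y := F 0 1 2 4 5 (by decide)
                have r6 : E a c x y = 1 := P 0 2 4 5 (by decide) (by rw [h0, h2, h4, h5])
                have r7 : E b c x y = 1 := P 1 2 4 5 (by decide) (by rw [h1, h2, h4, h5])
                have r8 := h01 a x y z
                have r9 := h01 b x y z
                omega
            · rcases hα 6 with h6 | h6
              · have r0 : E c x y z = 1 := P 2 4 5 6 (by decide) (by rw [h2, h4, h5, h6])
                have r1 : E d x y z = 1 := P 3 4 5 6 (by decide) (by rw [h3, h4, h5, h6])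
                have r2 : 2 ∣ E a b x y + E a b x z + E a b y z + E a x y z + E b x y z := F 0 1 4 5 6 (by decide)
                have r3 : E a b x y = 1 := P 0 1 4 5 (by decide) (by rw [h0, h1, h4, h5])
                have r4 : E a b y z = 1 := P 0 1 5 6 (by decide) (by rw [h0, h1, h5, h6])
                have r5 : 2 ∣ E a b c x + E a b c z + E a b x z + E a c x z + E b c x z := F 0 1 2 4 6 (by decide)
                have r6 : E a c x z = 1 := P 0 2 4 6 (by decide) (by rw [h0, h2, h4, h6])
                have r7 : E b c x z = 1 := P 1 2 4 6 (by decide) (by rw [h1, h2, h4, h6])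
                have r8 := h01 a x y z
                have r9 := h01 b x y z
                omega
              · have r0 : E a x y z = 1 := P 0 4 5 6 (by decide) (by rw [h0, h4, h5, h6])
                have r1 : E b x y z = 1 := P 1 4 5 6 (by decide) (by rw [h1, h4, h5, h6])
                have r2 : 2 ∣ E c d x y + E c d x z + E c d y z + E c x y z + E d x y z := F 2 3 4 5 6 (by decide)
                have r3 : E c d x y = 1 := P 2 3 4 5 (by decide) (by rw [h2, h3, h4, h5])
                have r4 : E c d x z = 1 := P 2 3 4 6 (by decide) (by rw [h2, h3, h4, h6])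
                have r5 : 2 ∣ E a c d y + E a c d z + E a c y z + E a d y z + E c d y z := F 0 2 3 5 6 (by decide)
                have r6 : E a c y z = 1 := P 0 2 5 6 (by decide) (by rw [h0, h2, h5, h6])
                have r7 : E a d y z = 1 := P 0 3 5 6 (by decide) (by rw [h0, h3, h5, h6])
                have r8 := h01 c x y z
                have r9 := h01 d x y z
                omega
          · rcases hα 5 with h5 | h5
            · rcases hα 6 with h6 | h6
              · have r0 : E c x y z = 1 := P 2 4 5 6 (by decide) (by rw [h2, h4, h5, h6])
                have r1 : E d x y z = 1 := P 3 4 5 6 (by decide) (by rw [h3, h4, h5, h6])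
                have r2 : 2 ∣ E a b x y + E a b x z + E a b y z + E a x y z + E b x y z := F 0 1 4 5 6 (by decide)
                have r3 : E a b x y = 1 := P 0 1 4 5 (by decide) (by rw [h0, h1, h4, h5])
                have r4 : E a b x z = 1 := P 0 1 4 6 (by decide) (by rw [h0, h1, h4, h6])
                have r5 : 2 ∣ E a b c y + E a b c z + E a b y z + E a c y z + E b c y z := F 0 1 2 5 6 (by decide)
                have r6 : E a c y z = 1 := P 0 2 5 6 (by decide) (by rw [h0, h2, h5, h6])
                have r7 : E b c y z = 1 := P 1 2 5 6 (by decide) (by rw [h1, h2, h5, h6])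
                have r8 := h01 a x y z
                have r9 := h01 b x y z
                omega
              · have r0 : E a x y z = 1 := P 0 4 5 6 (by decide) (by rw [h0, h4, h5, h6])
                have r1 : E b x y z = 1 := P 1 4 5 6 (by decide) (by rw [h1, h4, h5, h6])
                have r2 : 2 ∣ E c d x y + E c d x z + E c d y z + E c x y z + E d x y z := F 2 3 4 5 6 (by decide)
                have r3 : E c d x y = 1 := P 2 3 4 5 (by decide) (by rw [h2, h3, h4, h5])
                have r4 : E c d y z = 1 := P 2 3 5 6 (by decide) (by rw [h2, h3, h5, h6])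
                have r5 : 2 ∣ E a c d x + E a c d z + E a c x z + E a d x z + E c d x z := F 0 2 3 4 6 (by decide)
                have r6 : E a c x z = 1 := P 0 2 4 6 (by decide) (by rw [h0, h2, h4, h6])
                have r7 : E a d x z = 1 := P 0 3 4 6 (by decide) (by rw [h0, h3, h4, h6])
                have r8 := h01 c x y z
                have r9 := h01 d x y z
                omega
            · rcases hα 6 with h6 | h6
              · have r0 : E a x y z = 1 := P 0 4 5 6 (by decide) (by rw [h0, h4, h5, h6])
                have r1 : E b x y z = 1 := P 1 4 5 6 (by decide) (by rw [h1, h4, h5, h6])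
                have r2 : 2 ∣ E c d x y + E c d x z + E c d y z + E c x y z + E d x y z := F 2 3 4 5 6 (by decide)
                have r3 : E c d x z = 1 := P 2 3 4 6 (by decide) (by rw [h2, h3, h4, h6])
                have r4 : E c d y z = 1 := P 2 3 5 6 (by decide) (by rw [h2, h3, h5, h6])
                have r5 : 2 ∣ E a c d x + E a c d y + E a c x y + E a d x y + E c d x y := F 0 2 3 4 5 (by decide)
                have r6 : E a c x y = 1 := P 0 2 4 5 (by decide) (by rw [h0, h2, h4, h5])
                have r7 : E a d x y = 1 := P 0 3 4 5 (by decide) (by rw [h0, h3, h4, h5])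
                have r8 := h01 c x y z
                have r9 := h01 d x y z
                omega
              · have r0 : E a x y z = 0 := Q 0 4 5 6 (by decide) (by rw [h0, h4]) (by rw [h0, h5]) (by rw [h0, h6])
                have r1 : E b x y z = 0 := Q 1 4 5 6 (by decide) (by rw [h1, h4]) (by rw [h1, h5]) (by rw [h1, h6])
                have r2 : E c x y z = 1 := P 2 4 5 6 (by decide) (by rw [h2, h4, h5, h6])
                have r3 : E d x y z = 1 := P 3 4 5 6 (by decide) (by rw [h3, h4, h5, h6])
                omega
        · have r0 : E a b c d = 1 := P 0 1 2 3 (by decide) (by rw [h0, h1, h2, h3])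
          omega
      · rcases hα 3 with h3 | h3
        · have r0 : E a b c d = 1 := P 0 1 2 3 (by decide) (by rw [h0, h1, h2, h3])
          omega
        · rcases hα 4 with h4 | h4
          · rcases hα 5 with h5 | h5
            · rcases hα 6 with h6 | h6
              · have r0 : E a x y z = 1 := P 0 4 5 6 (by decide) (by rw [h0, h4, h5, h6])
                have r1 : E b x y z = 1 := P 1 4 5 6 (by decide) (by rw [h1, h4, h5, h6])
                have r2 : E c x y z = 1 := P 2 4 5 6 (by decide) (by rw [h2, h4, h5, h6])
                have r3 : E d x y z = 1 := P 3 4 5 6 (by decide) (by rw [h3, h4, h5, h6])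
                omega
              · have r0 : E a b c z = 0 := Q 0 1 2 6 (by decide) (by rw [h0, h1]) (by rw [h0, h2]) (by rw [h0, h6])
                omega
            · rcases hα 6 with h6 | h6
              · have r0 : E a b c y = 0 := Q 0 1 2 5 (by decide) (by rw [h0, h1]) (by rw [h0, h2]) (by rw [h0, h5])
                omega
              · have r0 : E a b c y = 0 := Q 0 1 2 5 (by decide) (by rw [h0, h1]) (by rw [h0, h2]) (by rw [h0, h5])
                omega
          · rcases hα 5 with h5 | h5
            · rcases hα 6 with h6 | h6
              · have r0 : E a b c x = 0 := Q 0 1 2 4 (by decide) (by rw [h0, h1]) (by rw [h0, h2]) (by rw [h0, h4])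
                omega
              · have r0 : E a b c x = 0 := Q 0 1 2 4 (by decide) (by rw [h0, h1]) (by rw [h0, h2]) (by rw [h0, h4])
                omega
            · rcases hα 6 with h6 | h6
              · have r0 : E a b c x = 0 := Q 0 1 2 4 (by decide) (by rw [h0, h1]) (by rw [h0, h2]) (by rw [h0, h4])
                omega
              · have r0 : E a b c x = 0 := Q 0 1 2 4 (by decide) (by rw [h0, h1]) (by rw [h0, h2]) (by rw [h0, h4])
                omega

end Pool.Agent.J6H5.St
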