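import Pool.Agent.J6H5.St.P2b

set_option autoImplicit false
set_option linter.unusedSectionVars false
set_option linter.unusedVariables false

open Finset

namespace Pool.Agent.J6H5.St

variable {E : Fin 10 → Fin 10 → Fin 10 → Fin 10 → ℕ}

/-- the five-tuple is independent -/
def IndE (E : Fin 10 → Fin 10 → Fin 10 → Fin 10 → ℕ) (I : Fin 5 → Fin 10) : Prop :=
  ∀ a b c d : Fin 5, a < b → b < c → c < d → E (I a) (I b) (I c) (I d) = 0

theorem l0 (I : Fin 5 → Fin 10) (x y : Fin 10) (hs : SevE E ![I 0, I 1, I 2, I 3, I 4, x, y]) (hI : IndE E I) :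
    (∀ a b c : Fin 5, a < b → b < c → E (I a) (I b) (I c) x = E (I 0) (I 1) (I 2) x) ∧
    (∀ a b c : Fin 5, a < b → b < c → E (I a) (I b) (I c) y = E (I 0) (I 1) (I 2) y) ∧
    (∀ a b : Fin 5, a < b → E (I 0) (I 1) (I 2) x = 0 → E (I 0) (I 1) (I 2) y = 0 → E (I a) (I b) x y = 0) ∧
    (∀ a b : Fin 5, a < b → E (I 0) (I 1) (I 2) x ≠ E (I 0) (I 1) (I 2) y → E (I a) (I b) x y = 1) := by
  obtain ⟨α, hα, P, Q, F⟩ := hs
  have hv : ∀ k : Fin 5, (![I 0, I 1, I 2, I 3, I 4, x, y] : Fin 7 → Fin 10) (k.castLE (by decide)) = I k := by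
    intro k; fin_cases k <;> rfl
  have e1 : ¬ (α 0 + α 1 + α 2 + α 3) % 2 = 1 := fun h => by
    have h1 : E (I 0) (I 1) (I 2) (I 3) = 1 := P 0 1 2 3 (by decide) h
    have h2 := hI 0 1 2 3 (by decide) (by decide) (by decide)
    omega
  have e2 : ¬ (α 0 + α 1 + α 2 + α 4) % 2 = 1 := fun h => by
    have h1 : E (I 0) (I 1) (I 2) (I 4) = 1 := P 0 1 2 4 (by decide) h
    have h2 := hI 0 1 2 4 (by decide) (by decide) (by decide)
    omega
  have e3 : ¬ (α 0 + α 1 + α 3 + α 4) % 2 = 1 := fun h => by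
    have h1 : E (I 0) (I 1) (I 3) (I 4) = 1 := P 0 1 3 4 (by decide) h
    have h2 := hI 0 1 3 4 (by decide) (by decide) (by decide)
    omega
  have e4 : ¬ (α 0 + α 2 + α 3 + α 4) % 2 = 1 := fun h => by
    have h1 : E (I 0) (I 2) (I 3) (I 4) = 1 := P 0 2 3 4 (by decide) h
    have h2 := hI 0 2 3 4 (by decide) (by decide) (by decide)
    omega
  have e5 : ¬ (α 1 + α 2 + α 3 + α 4) % 2 = 1 := fun h => by
    have h1 : E (I 1) (I 2) (I 3) (I 4) = 1 := P 1 2 3 4 (by decide) h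
    have h2 := hI 1 2 3 4 (by decide) (by decide) (by decide)
    omega
  have hc : ∀ k : Fin 5, α (k.castLE (by decide)) = α 0 := by
    have b0 := hα 0
    have b1 := hα 1
    have b2 := hα 2
    have b3 := hα 3
    have b4 := hα 4
    intro k
    fin_cases k
    · rfl
    · show α 1 = α 0; omega
    · show α 2 = α 0; omega
    · show α 3 = α 0; omega
    · show α 4 = α 0; omega
  have hn5 : ∀ a b c : Fin 5, a < b → b < c → ([a.castLE (by decide), b.castLE (by decide), c.castLE (by decide), 5] :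
      List (Fin 7)).Nodup := by decide
  have hn6 : ∀ a b c : Fin 5, a < b → b < c → ([a.castLE (by decide), b.castLE (by decide), c.castLE (by decide), 6] :
      List (Fin 7)).Nodup := by decide
  have hn56 : ∀ a b : Fin 5, a < b → ([a.castLE (by decide), b.castLE (by decide), 5, 6] :
      List (Fin 7)).Nodup := by decide
  have bx := hα 5
  have by' := hα 6
  have b0 := hα 0
  have tx : ∀ a b c : Fin 5, a < b → b < c → E (I a) (I b) (I c) x = if α 5 = α 0 then 0 else 1 := by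
    intro a b c h1 h2
    have hE : E (I a) (I b) (I c) x = E ((![I 0, I 1, I 2, I 3, I 4, x, y] : Fin 7 → Fin 10) (a.castLE (by decide)))
        ((![I 0, I 1, I 2, I 3, I 4, x, y] : Fin 7 → Fin 10) (b.castLE (by decide)))
        ((![I 0, I 1, I 2, I 3, I 4, x, y] : Fin 7 → Fin 10) (c.castLE (by decide)))
        ((![I 0, I 1, I 2, I 3, I 4, x, y] : Fin 7 → Fin 10) 5) := by rw [hv, hv, hv]; rfl
    rw [hE]
    split_ifs with h
    · exact Q _ _ _ _ (hn5 a b c h1 h2) (by rw [hc, hc]) (by rw [hc, hc]) (by rw [hc, h])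
    · exact P _ _ _ _ (hn5 a b c h1 h2) (by rw [hc, hc, hc]; omega)
  have ty : ∀ a b c : Fin 5, a < b → b < c → E (I a) (I b) (I c) y = if α 6 = α 0 then 0 else 1 := by
    intro a b c h1 h2
    have hE : E (I a) (I b) (I c) y = E ((![I 0, I 1, I 2, I 3, I 4, x, y] : Fin 7 → Fin 10) (a.castLE (by decide)))
        ((![I 0, I 1, I 2, I 3, I 4, x, y] : Fin 7 → Fin 10) (b.castLE (by decide)))
        ((![I 0, I 1, I 2, I 3, I 4, x, y] : Fin 7 → Fin 10) (c.castLE (by decide)))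
        ((![I 0, I 1, I 2, I 3, I 4, x, y] : Fin 7 → Fin 10) 6) := by rw [hv, hv, hv]; rfl
    rw [hE]
    split_ifs with h
    · exact Q _ _ _ _ (hn6 a b c h1 h2) (by rw [hc, hc]) (by rw [hc, hc]) (by rw [hc, h])
    · exact P _ _ _ _ (hn6 a b c h1 h2) (by rw [hc, hc, hc]; omega)
  have hE2 : ∀ a b : Fin 5, E (I a) (I b) x y = E ((![I 0, I 1, I 2, I 3, I 4, x, y] : Fin 7 → Fin 10) (a.castLE (by decide)))
        ((![I 0, I 1, I 2, I 3, I 4, x, y] : Fin 7 → Fin 10) (b.castLE (by decide)))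
        ((![I 0, I 1, I 2, I 3, I 4, x, y] : Fin 7 → Fin 10) 5)
        ((![I 0, I 1, I 2, I 3, I 4, x, y] : Fin 7 → Fin 10) 6) := by
    intro a b; rw [hv, hv]; rfl
  refine ⟨fun a b c h1 h2 => ?_, fun a b c h1 h2 => ?_, fun a b h1 h2 h3 => ?_, fun a b h1 h2 => ?_⟩
  · rw [tx a b c h1 h2, tx 0 1 2 (by decide) (by decide)]
  · rw [ty a b c h1 h2, ty 0 1 2 (by decide) (by decide)]
  · rw [tx 0 1 2 (by decide) (by decide)] at h2
    rw [ty 0 1 2 (by decide) (by decide)] at h3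
    have h4 : α 5 = α 0 := by by_contra h; rw [if_neg h] at h2; omega
    have h5 : α 6 = α 0 := by by_contra h; rw [if_neg h] at h3; omega
    rw [hE2]
    exact Q _ _ _ _ (hn56 a b h1) (by rw [hc, hc]) (by rw [hc, h4]) (by rw [hc, h5])
  · rw [tx 0 1 2 (by decide) (by decide), ty 0 1 2 (by decide) (by decide)] at h2
    have h4 : (α 5 + α 6) % 2 = 1 := by
      by_cases h5 : α 5 = α 0 <;> by_cases h6 : α 6 = α 0
      · rw [if_pos h5, if_pos h6] at h2; omega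
      · omega
      · omega
      · rw [if_neg h5, if_neg h6] at h2; omega
    rw [hE2]
    exact P _ _ _ _ (hn56 a b h1) (by rw [hc, hc]; omega)

variable {a b c d x y z w : Fin 10}

theorem l1 (hs : SevE E ![a, b, c, d, x, y, z]) (g : E a b c d = 0) (g1 : E a b c x = 0) (g2 : E a b d x = 0)
    (g3 : E a c d x = 0) (g4 : E b c d x = 0) (g5 : E a b c y = 0) (g6 : E a b c z = 0) :
    E a x y z = 0 ∧ E b x y z = 0 := by
  obtain ⟨α, hα, P, Q, F⟩ := hs
  have p0 : (α 0 + α 1 + α 2 + α 3) % 2 = 1 → E a b c d = 1 := P 0 1 2 3 (by decide)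
  have p1 : (α 0 + α 1 + α 2 + α 4) % 2 = 1 → E a b c x = 1 := P 0 1 2 4 (by decide)
  have p2 : (α 0 + α 1 + α 3 + α 4) % 2 = 1 → E a b d x = 1 := P 0 1 3 4 (by decide)
  have p3 : (α 0 + α 2 + α 3 + α 4) % 2 = 1 → E a c d x = 1 := P 0 2 3 4 (by decide)
  have p4 : (α 1 + α 2 + α 3 + α 4) % 2 = 1 → E b c d x = 1 := P 1 2 3 4 (by decide)
  have p5 : (α 0 + α 1 + α 2 + α 5) % 2 = 1 → E a b c y = 1 := P 0 1 2 5 (by decide)
  have p6 : (α 0 + α 1 + α 2 + α 6) % 2 = 1 → E a b c z = 1 := P 0 1 2 6 (by decide)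
  have b0 := hα 0
  have b1 := hα 1
  have b2 := hα 2
  have b3 := hα 3
  have b4 := hα 4
  have b5 := hα 5
  have b6 := hα 6
  refine ⟨Q 0 4 5 6 (by decide) ?_ ?_ ?_, Q 1 4 5 6 (by decide) ?_ ?_ ?_⟩ <;> omega

theorem l2 (hs : SevE E ![a, b, c, x, y, z, w]) (g1 : E a b c x = 0) (g2 : E a b c y = 0)
    (g3 : E a b c z = 0) (g4 : E a b c w = 0) : E x y z w = 0 := by
  obtain ⟨α, hα, P, Q, F⟩ := hs
  have p1 : (α 0 + α 1 + α 2 + α 3) % 2 = 1 → E a b c x = 1 := P 0 1 2 3 (by decide)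
  have p2 : (α 0 + α 1 + α 2 + α 4) % 2 = 1 → E a b c y = 1 := P 0 1 2 4 (by decide)
  have p3 : (α 0 + α 1 + α 2 + α 5) % 2 = 1 → E a b c z = 1 := P 0 1 2 5 (by decide)
  have p4 : (α 0 + α 1 + α 2 + α 6) % 2 = 1 → E a b c w = 1 := P 0 1 2 6 (by decide)
  have b0 := hα 0
  have b1 := hα 1
  have b2 := hα 2
  have b3 := hα 3
  have b4 := hα 4
  have b5 := hα 5
  have b6 := hα 6
  refine Q 3 4 5 6 (by decide) ?_ ?_ ?_ <;> omega

theorem l3 (hs : SevE E ![a, b, c, x, y, z, w]) (g1 : E a b x y = 0) (g2 : E a b x z = 0) (g3 : E a b y z = 0)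
    (g4 : E a x y z = 0) (g5 : E b x y z = 0) (g6 : E a b c x = 0) (g7 : E a b c w = 1) : E x y z w = 1 := by
  obtain ⟨α, hα, P, Q, F⟩ := hs
  have p1 : (α 0 + α 1 + α 3 + α 4) % 2 = 1 → E a b x y = 1 := P 0 1 3 4 (by decide)
  have p2 : (α 0 + α 1 + α 3 + α 5) % 2 = 1 → E a b x z = 1 := P 0 1 3 5 (by decide)
  have p3 : (α 0 + α 1 + α 4 + α 5) % 2 = 1 → E a b y z = 1 := P 0 1 4 5 (by decide)
  have p4 : (α 0 + α 3 + α 4 + α 5) % 2 = 1 → E a x y z = 1 := P 0 3 4 5 (by decide)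
  have p5 : (α 1 + α 3 + α 4 + α 5) % 2 = 1 → E b x y z = 1 := P 1 3 4 5 (by decide)
  have p6 : (α 0 + α 1 + α 2 + α 3) % 2 = 1 → E a b c x = 1 := P 0 1 2 3 (by decide)
  have q7 : α 0 = α 1 → α 0 = α 2 → α 0 = α 6 → E a b c w = 0 := Q 0 1 2 6 (by decide)
  have b0 := hα 0
  have b1 := hα 1
  have b2 := hα 2
  have b3 := hα 3
  have b4 := hα 4
  have b5 := hα 5
  have b6 := hα 6
  have h6 : α 0 ≠ α 6 := by
    intro h
    have := q7 (by omega) (by omega) h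
    omega
  exact P 3 4 5 6 (by decide) (by omega)

theorem l3' (hs : SevE E ![a, b, c, d, x, y, z]) (g : E a b c d = 0) (g1 : E a b c x = 0) (g2 : E a b d x = 0)
    (g3 : E a c d x = 0) (g4 : E b c d x = 0) (g5 : E a b c y = 0) (g6 : E a b c z = 1) :
    E a x y z = 1 := by
  obtain ⟨α, hα, P, Q, F⟩ := hs
  have p0 : (α 0 + α 1 + α 2 + α 3) % 2 = 1 → E a b c d = 1 := P 0 1 2 3 (by decide)
  have p1 : (α 0 + α 1 + α 2 + α 4) % 2 = 1 → E a b c x = 1 := P 0 1 2 4 (by decide)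
  have p2 : (α 0 + α 1 + α 3 + α 4) % 2 = 1 → E a b d x = 1 := P 0 1 3 4 (by decide)
  have p3 : (α 0 + α 2 + α 3 + α 4) % 2 = 1 → E a c d x = 1 := P 0 2 3 4 (by decide)
  have p4 : (α 1 + α 2 + α 3 + α 4) % 2 = 1 → E b c d x = 1 := P 1 2 3 4 (by decide)
  have p5 : (α 0 + α 1 + α 2 + α 5) % 2 = 1 → E a b c y = 1 := P 0 1 2 5 (by decide)
  have q7 : α 0 = α 1 → α 0 = α 2 → α 0 = α 6 → E a b c z = 0 := Q 0 1 2 6 (by decide)
  have b0 := hα 0
  have b1 := hα 1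
  have b2 := hα 2
  have b3 := hα 3
  have b4 := hα 4
  have b5 := hα 5
  have b6 := hα 6
  have h6 : α 0 ≠ α 6 := by
    intro h
    have := q7 (by omega) (by omega) h
    omega
  exact P 0 4 5 6 (by decide) (by omega)

/-- the assumption on the ten vertices -/
def AllSev (E : Fin 10 → Fin 10 → Fin 10 → Fin 10 → ℕ) : Prop :=
  ∀ a b c d e f g : Fin 10, [a, b, c, d, e, f, g].Nodup → SevE E ![a, b, c, d, e, f, g]

theorem l4 (h01 : ∀ a b c d, E a b c d = 0 ∨ E a b c d = 1) (hS : AllSev E) (I : Fin 5 → Fin 10) (hI : IndE E I)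
    (hn : [I 0, I 1, I 2, I 3, I 4, x, y, z].Nodup)
    (hx : ∀ a b c : Fin 5, a < b → b < c → E (I a) (I b) (I c) x = 1)
    (hy : ∀ a b c : Fin 5, a < b → b < c → E (I a) (I b) (I c) y = 1)
    (hz : ∀ a b c : Fin 5, a < b → b < c → E (I a) (I b) (I c) z = 1) (k : Fin 5) : E (I k) x y z = 1 := by
  have key : ∀ i j l m : Fin 5, i < j → j < l → l < m → [I i, I j, I l, I m, x, y, z].Nodup →
      2 ∣ E (I i) x y z + E (I j) x y z + E (I l) x y z + E (I m) x y z ∧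
      (E (I i) x y z = 1 ∨ E (I j) x y z = 1 ∨ E (I l) x y z = 1 ∨ E (I m) x y z = 1) := by
    intro i j l m h1 h2 h3 h4
    exact c7 h01 (hS _ _ _ _ _ _ _ h4) (hI i j l m h1 h2 h3)
      (hx i j l h1 h2) (hy i j l h1 h2) (hz i j l h1 h2)
      (hx i j m h1 (h2.trans h3)) (hy i j m h1 (h2.trans h3)) (hz i j m h1 (h2.trans h3))
      (hx i l m (h1.trans h2) h3) (hy i l m (h1.trans h2) h3) (hz i l m (h1.trans h2) h3)
      (hx j l m h2 h3) (hy j l m h2 h3) (hz j l m h2 h3)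
  have hn' := hn
  simp only [List.nodup_cons, List.mem_cons, List.not_mem_nil, or_false, not_or, List.nodup_nil, and_true,
    not_false_eq_true] at hn'
  obtain ⟨⟨a1, a2, a3, a4, a5, a6, a7⟩, ⟨b2, b3, b4, b5, b6, b7⟩, ⟨c3, c4, c5, c6, c7'⟩, ⟨d4, d5, d6, d7⟩,
    ⟨e5, e6, e7⟩, ⟨f6, f7⟩, g7⟩ := hn'
  have k1 := key 0 1 2 3 (by decide) (by decide) (by decide)
    (by simp [a1, a2, a3, a5, a6, a7, b2, b3, b5, b6, b7, c3, c5, c6, c7', d5, d6, d7, f6, f7, g7])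
  have k2 := key 0 1 2 4 (by decide) (by decide) (by decide)
    (by simp [a1, a2, a4, a5, a6, a7, b2, b4, b5, b6, b7, c4, c5, c6, c7', e5, e6, e7, f6, f7, g7])
  have k3 := key 0 1 3 4 (by decide) (by decide) (by decide)
    (by simp [a1, a3, a4, a5, a6, a7, b3, b4, b5, b6, b7, d4, d5, d6, d7, e5, e6, e7, f6, f7, g7])
  have k4 := key 0 2 3 4 (by decide) (by decide) (by decide)
    (by simp [a2, a3, a4, a5, a6, a7, c3, c4, c5, c6, c7', d4, d5, d6, d7, e5, e6, e7, f6, f7, g7])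
  have k5 := key 1 2 3 4 (by decide) (by decide) (by decide)
    (by simp [b2, b3, b4, b5, b6, b7, c3, c4, c5, c6, c7', d4, d5, d6, d7, e5, e6, e7, f6, f7, g7])
  have u0 := h01 (I 0) x y z
  have u1 := h01 (I 1) x y z
  have u2 := h01 (I 2) x y z
  have u3 := h01 (I 3) x y z
  have u4 := h01 (I 4) x y z
  clear key hn hx hy hz hI hS
  fin_cases k
  · show E (I 0) x y z = 1; omega
  · show E (I 1) x y z = 1; omega
  · show E (I 2) x y z = 1; omega
  · show E (I 3) x y z = 1; omega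
  · show E (I 4) x y z = 1; omega

end Pool.Agent.J6H5.St
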