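import Pool.Agent.J6H5.St.Defs

/-!
Stability for 4-graphs whose seven-vertex parts are of Giraud type: from the pieces 1 and 2 to the result.
-/

set_option autoImplicit false

open Finset

namespace Pool.Agent.J6H5.St

/-! ### counting tuples -/

section cnt

variable {ι κ : Type} [Fintype ι] [DecidableEq ι] [Fintype κ] [DecidableEq κ] {n : ℕ}

/-- a family of functions which are determined by their values off `i` -/
theorem card_det_le (i : ι) (S : Finset (ι → Fin n))
    (h : ∀ f ∈ S, ∀ g ∈ S, (∀ x, x ≠ i → f x = g x) → f = g) :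
    S.card ≤ n ^ (Fintype.card ι - 1) := by
  have h1 : S.card ≤ (univ : Finset ({x : ι // x ≠ i} → Fin n)).card := by
    apply Finset.card_le_card_of_injOn (fun f x => f x.1) (fun _ _ => Finset.mem_coe.2 (mem_univ _))
    intro f hf g hg hfg
    exact h f hf g hg fun x hx => congrFun hfg ⟨x, hx⟩
  have h2 : Fintype.card {x : ι // x ≠ i} = Fintype.card ι - 1 := by
    rw [Fintype.card_subtype_compl, Fintype.card_subtype_eq]
  rwa [card_univ, Fintype.card_fun, Fintype.card_fin, h2] at h1

theorem card_eq_le {i j : ι} (hij : i ≠ j) :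
    (univ.filter fun f : ι → Fin n => f i = f j).card ≤ n ^ (Fintype.card ι - 1) := by
  refine card_det_le i _ fun f hf g hg h => funext fun x => ?_
  rw [mem_filter] at hf hg
  by_cases hx : x = i
  · rw [hx, hf.2, hg.2, h j hij.symm]
  · exact h x hx

theorem card_val_le (i : ι) (c : Fin n) :
    (univ.filter fun f : ι → Fin n => f i = c).card ≤ n ^ (Fintype.card ι - 1) := by
  refine card_det_le i _ fun f hf g hg h => funext fun x => ?_
  rw [mem_filter] at hf hg
  by_cases hx : x = i
  · rw [hx, hf.2, hg.2]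
  · exact h x hx

open Classical in
theorem card_noninj : (univ.filter fun f : ι → Fin n => ¬ Function.Injective f).card ≤
    Fintype.card ι ^ 2 * n ^ (Fintype.card ι - 1) := by
  have h1 : (univ.filter fun f : ι → Fin n => ¬ Function.Injective f) ⊆
      ((univ : Finset (ι × ι)).filter fun p => p.1 ≠ p.2).biUnion
        fun p => univ.filter fun f : ι → Fin n => f p.1 = f p.2 := by
    intro f hf
    rw [mem_filter] at hf
    have hf2 := hf.2
    unfold Function.Injective at hf2
    push Not at hf2
    obtain ⟨i, j, h1, h2⟩ := hf2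
    rw [mem_biUnion]
    exact ⟨(i, j), by simpa using h2, by simpa using h1⟩
  refine (card_le_card h1).trans ((card_biUnion_le_card_mul _ _ (n ^ (Fintype.card ι - 1)) ?_).trans
    (Nat.mul_le_mul_right _ ?_))
  · intro p hp
    rw [mem_filter] at hp
    exact card_eq_le hp.2
  · refine (card_le_univ _).trans ?_
    rw [Fintype.card_prod, sq]

theorem card_comp_le (e : ι → κ) (he : Function.Injective e) (S : Finset (ι → Fin n)) :
    (univ.filter fun t : κ → Fin n => t ∘ e ∈ S).card ≤
      S.card * n ^ (Fintype.card κ - Fintype.card ι) := by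
  classical
  have h1 : (univ.filter fun t : κ → Fin n => t ∘ e ∈ S).card ≤
      (S ×ˢ (univ : Finset ({x : κ // x ∉ Set.range e} → Fin n))).card := by
    apply Finset.card_le_card_of_injOn (fun t => (t ∘ e, fun x => t x.1))
    · intro t ht
      have ht' := (mem_filter.1 (mem_coe.1 ht)).2
      exact mem_coe.2 (mem_product.2 ⟨ht', mem_univ _⟩)
    · intro t ht u hu htu
      have e1 : t ∘ e = u ∘ e := congrArg Prod.fst htu
      have e2 : (fun x : {x : κ // x ∉ Set.range e} => t x.1) = fun x => u x.1 :=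
        congrArg Prod.snd htu
      funext x
      by_cases hx : x ∈ Set.range e
      · obtain ⟨y, rfl⟩ := hx
        exact congrFun e1 y
      · exact congrFun e2 ⟨x, hx⟩
  have h2 : Fintype.card {x : κ // x ∉ Set.range e} = Fintype.card κ - Fintype.card ι := by
    rw [Fintype.card_subtype_compl]
    congr 1
    exact (Fintype.card_congr (Equiv.ofInjective e he)).symm
  rwa [card_product, card_univ, Fintype.card_fun, Fintype.card_fin, h2] at h1

end cnt

/-! ### the rule on subsets -/

section rule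

variable {α β : Type} [DecidableEq α] [DecidableEq β] [Fintype β]

theorem gir_image (A : Finset α) (D : α → α → Bool) (c : β → α) (hc : Function.Injective c)
    (Q : Finset β) : gir A D (Q.image c) ↔
      gir (univ.filter fun x => c x ∈ A) (fun x y => D (c x) (c y)) Q := by
  have h1 : Q.image c ∩ A = (Q ∩ univ.filter fun x => c x ∈ A).image c := by
    ext x
    simp only [mem_inter, mem_image, mem_filter, mem_univ, true_and]
    constructor
    · rintro ⟨⟨y, hy, rfl⟩, hx⟩
      exact ⟨y, ⟨hy, hx⟩, rfl⟩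
    · rintro ⟨y, ⟨hy, hx⟩, rfl⟩
      exact ⟨⟨y, hy, rfl⟩, hx⟩
  have h2 : Q.image c \ A = (Q \ univ.filter fun x => c x ∈ A).image c := by
    ext x
    simp only [mem_sdiff, mem_image, mem_filter, mem_univ, true_and]
    constructor
    · rintro ⟨⟨y, hy, rfl⟩, hx⟩
      exact ⟨y, ⟨hy, hx⟩, rfl⟩
    · rintro ⟨y, ⟨hy, hx⟩, rfl⟩
      exact ⟨⟨y, hy, rfl⟩, hx⟩
  have h3 : (((Q.image c ∩ A) ×ˢ (Q.image c \ A)).filter fun p => D p.1 p.2 = true).card =
      (((Q ∩ univ.filter fun x => c x ∈ A) ×ˢ (Q \ univ.filter fun x => c x ∈ A)).filter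
        fun p => D (c p.1) (c p.2) = true).card := by
    rw [h1, h2]
    rw [← card_image_of_injective (((Q ∩ univ.filter fun x => c x ∈ A) ×ˢ
      (Q \ univ.filter fun x => c x ∈ A)).filter fun p => D (c p.1) (c p.2) = true)
      (hc.prodMap hc)]
    congr 1
    ext ⟨x, y⟩
    simp only [mem_filter, mem_product, mem_image, Prod.map_apply, Prod.exists, Prod.mk.injEq]
    constructor
    · rintro ⟨⟨⟨a, ha, rfl⟩, b, hb, rfl⟩, h⟩
      exact ⟨a, b, ⟨⟨ha, hb⟩, h⟩, rfl, rfl⟩
    · rintro ⟨a, b, ⟨⟨ha, hb⟩, h⟩, rfl, rfl⟩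
      exact ⟨⟨⟨a, ha, rfl⟩, b, hb, rfl⟩, h⟩
  unfold gir
  rw [h3, h1, card_image_of_injective _ hc]

theorem TypeG.comp {n k l : ℕ} {H : Finset (Finset (Fin n))} {w : Fin k → Fin n} (h : TypeG H w)
    {e : Fin l → Fin k} (he : Function.Injective e) : TypeG H (w ∘ e) := by
  obtain ⟨A, D, h⟩ := h
  refine ⟨univ.filter fun x => e x ∈ A, fun x y => D (e x) (e y), fun Q hQ => ?_⟩
  rw [← gir_image A D e he Q, ← h (Q.image e) (by rw [card_image_of_injective _ he, hQ]),
    image_image]

/-- the number of odd terms has the parity of the sum -/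
theorem even_odd {γ : Type} (S : Finset γ) (s : γ → ℕ) (h : Even (∑ j ∈ S, s j)) :
    Even (S.filter fun j => Odd (s j)).card := by
  classical
  have h1 : ∀ T : Finset γ, Even ((∑ j ∈ T, s j) + (T.filter fun j => Odd (s j)).card) := by
    intro T
    induction T using Finset.induction_on with
    | empty => simp
    | insert a T ha ih =>
      rw [sum_insert ha, filter_insert]
      by_cases hs : Odd (s a)
      · rw [if_pos hs, card_insert_of_notMem (by simp [ha])]
        obtain ⟨u, hu⟩ := hs
        obtain ⟨v, hv⟩ := ih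
        exact ⟨u + v + 1, by omega⟩
      · rw [if_neg hs]
        rw [Nat.not_odd_iff_even] at hs
        obtain ⟨u, hu⟩ := hs
        obtain ⟨v, hv⟩ := ih
        exact ⟨u + v, by omega⟩
  have h2 := h1 S
  rw [Nat.even_add] at h2
  exact h2.1 h

/-- five vertices span an even number of edges -/
theorem even_gir (A : Finset (Fin 5)) (D : Fin 5 → Fin 5 → Bool) :
    Even (univ.filter fun j : Fin 5 => gir A D (univ.erase j)).card := by
  have e1 : ∀ j : Fin 5, (univ.erase j) ∩ A = A.erase j := by
    intro j; ext x; simp only [mem_inter, mem_erase, mem_univ, and_true]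
  have e2 : ∀ j : Fin 5, (univ.erase j) \ A = Aᶜ.erase j := by
    intro j; ext x; simp only [mem_sdiff, mem_erase, mem_univ, and_true, mem_compl]
  obtain ⟨s, hs⟩ : ∃ s : Fin 5 → ℕ, s = fun j =>
    (((A.erase j) ×ˢ (Aᶜ.erase j)).filter fun p => D p.1 p.2 = true).card := ⟨_, rfl⟩
  have e3 : ∀ j : Fin 5, gir A D (univ.erase j) ↔ (A.erase j).card = 1 ∨ (A.erase j).card = 3 ∨
      ((A.erase j).card = 2 ∧ Odd (s j)) := by
    intro j
    unfold gir
    rw [e1, e2, hs]
  have hc : A.card + Aᶜ.card = 5 := by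
    rw [card_add_card_compl, Fintype.card_fin]
  obtain ⟨T, hT⟩ : ∃ T : ℕ, T = ∑ x ∈ A, ∑ y ∈ Aᶜ, (if D x y = true then 1 else 0) := ⟨_, rfl⟩
  have hsum : ∀ j, s j = ∑ x ∈ A.erase j, ∑ y ∈ Aᶜ.erase j, (if D x y = true then 1 else 0) := by
    intro j
    rw [hs]
    show (filter _ _).card = _
    rw [card_filter, sum_product]
  have hin : ∀ j ∈ A, s j + ∑ y ∈ Aᶜ, (if D j y = true then 1 else 0) = T := by
    intro j hj
    rw [hsum, hT, ← sum_erase_add _ _ hj, erase_eq_of_notMem (by simpa using hj : j ∉ Aᶜ)]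
  have hout : ∀ j ∈ Aᶜ, s j + ∑ x ∈ A, (if D x j = true then 1 else 0) = T := by
    intro j hj
    have hj' : j ∉ A := by simpa using hj
    rw [hsum, hT, erase_eq_of_notMem hj', ← sum_add_distrib]
    refine sum_congr rfl fun x _ => ?_
    rw [← sum_erase_add _ _ hj]
  have hA : ∑ j ∈ A, ∑ y ∈ Aᶜ, (if D j y = true then 1 else 0) = T := hT.symm
  have hB : ∑ j ∈ Aᶜ, ∑ x ∈ A, (if D x j = true then 1 else 0) = T := by
    rw [sum_comm]
    exact hT.symm
  have ce : ∀ j ∈ A, (A.erase j).card = A.card - 1 := fun j hj => card_erase_of_mem hj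
  have cn : ∀ j ∈ Aᶜ, (A.erase j).card = A.card := fun j hj => by
    rw [erase_eq_of_notMem (by simpa using hj)]
  have split : (univ.filter fun j : Fin 5 => gir A D (univ.erase j)).card =
      (A.filter fun j => gir A D (univ.erase j)).card +
        (Aᶜ.filter fun j => gir A D (univ.erase j)).card := by
    rw [← card_union_of_disjoint]
    · congr 1
      rw [← filter_union, union_compl]
    · exact disjoint_filter_filter disjoint_compl_right
  rw [split]
  have hle : A.card ≤ 5 := by omega
  have all_in : ∀ (P : Fin 5 → Prop) [DecidablePred P] (S : Finset (Fin 5)), (∀ j ∈ S, P j) →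
      (S.filter P).card = S.card := fun P _ S h => by rw [filter_true_of_mem h]
  have none_in : ∀ (P : Fin 5 → Prop) [DecidablePred P] (S : Finset (Fin 5)), (∀ j ∈ S, ¬ P j) →
      (S.filter P).card = 0 := fun P _ S h => by rw [filter_false_of_mem h, card_empty]
  have hcases : A.card = 0 ∨ A.card = 1 ∨ A.card = 2 ∨ A.card = 3 ∨ A.card = 4 ∨ A.card = 5 := by
    omega
  rcases hcases with h | h | h | h | h | h
  · rw [none_in _ A (fun j hj => by rw [e3, ce j hj]; omega),
      none_in _ Aᶜ (fun j hj => by rw [e3, cn j hj]; omega)]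
    exact Even.zero
  · rw [none_in _ A (fun j hj => by rw [e3, ce j hj]; omega),
      all_in _ Aᶜ (fun j hj => by rw [e3, cn j hj]; omega)]
    exact ⟨2, by omega⟩
  · rw [all_in _ A (fun j hj => by rw [e3, ce j hj]; omega)]
    have h1 : (Aᶜ.filter fun j => gir A D (univ.erase j)) = Aᶜ.filter fun j => Odd (s j) := by
      refine filter_congr fun j hj => ?_
      rw [e3, cn j hj, h]
      simp
    rw [h1, h]
    refine Even.add ⟨1, rfl⟩ (even_odd _ _ ?_)
    have h2 : (∑ j ∈ Aᶜ, s j) + T = Aᶜ.card * T := by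
      rw [← hB, ← sum_add_distrib, sum_congr rfl hout, sum_const, smul_eq_mul, hB]
    refine ⟨T, ?_⟩
    have h3 : Aᶜ.card = 3 := by omega
    rw [h3] at h2
    omega
  · rw [all_in _ Aᶜ (fun j hj => by rw [e3, cn j hj]; omega)]
    have h1 : (A.filter fun j => gir A D (univ.erase j)) = A.filter fun j => Odd (s j) := by
      refine filter_congr fun j hj => ?_
      rw [e3, ce j hj, h]
      simp
    rw [h1]
    refine Even.add (even_odd _ _ ?_) ⟨1, by omega⟩
    have h2 : (∑ j ∈ A, s j) + T = A.card * T := by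
      conv_lhs => rw [← hA, ← sum_add_distrib, sum_congr rfl hin, sum_const, smul_eq_mul]
    refine ⟨T, ?_⟩
    rw [h] at h2
    omega
  · rw [all_in _ A (fun j hj => by rw [e3, ce j hj]; omega),
      none_in _ Aᶜ (fun j hj => by rw [e3, cn j hj]; omega)]
    exact ⟨2, by omega⟩
  · rw [none_in _ A (fun j hj => by rw [e3, ce j hj]; omega),
      none_in _ Aᶜ (fun j hj => by rw [e3, cn j hj]; omega)]
    exact Even.zero

end rule

/-! ### five-tuples -/

section five

variable {n : ℕ} {H : Finset (Finset (Fin n))}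

/-- the number of edges in a five-tuple -/
def ne (H : Finset (Finset (Fin n))) (w : Fin 5 → Fin n) : ℕ :=
  (univ.filter fun j : Fin 5 => (univ.erase j).image w ∈ H).card

theorem odd_inj (hH : ∀ e ∈ H, e.card = 4) {w : Fin 5 → Fin n} (hw : Odd (ne H w)) :
    Function.Injective w := by
  intro i j hij
  by_contra hne
  have hsame : ((univ.erase i).image w ∈ H) ↔ ((univ.erase j).image w ∈ H) := by
    have : (univ.erase i).image w = (univ.erase j).image w := by
      ext x
      simp only [mem_image, mem_erase, mem_univ, and_true]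
      constructor
      · rintro ⟨a, ha, rfl⟩
        by_cases haj : a = j
        · exact ⟨i, hne, by rw [haj, hij]⟩
        · exact ⟨a, haj, rfl⟩
      · rintro ⟨a, ha, rfl⟩
        by_cases hai : a = i
        · exact ⟨j, Ne.symm hne, by rw [hai, hij]⟩
        · exact ⟨a, hai, rfl⟩
    rw [this]
  have hoth : ∀ l, l ≠ i → l ≠ j → (univ.erase l).image w ∉ H := by
    intro l hli hlj hl
    have h1 := hH _ hl
    have h2 : (univ.erase l).image w = ((univ.erase l).erase i).image w := by
      ext x
      simp only [mem_image, mem_erase, mem_univ, and_true]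
      constructor
      · rintro ⟨a, ha, rfl⟩
        by_cases hai : a = i
        · exact ⟨j, ⟨Ne.symm hne, Ne.symm hlj⟩, by rw [hai, hij]⟩
        · exact ⟨a, ⟨hai, ha⟩, rfl⟩
      · rintro ⟨a, ⟨_, ha⟩, rfl⟩
        exact ⟨a, ha, rfl⟩
    have h3 : ((univ.erase l).erase i).card = 3 := by
      rw [card_erase_of_mem (by simpa using Ne.symm hli), card_erase_of_mem (mem_univ _), card_univ,
        Fintype.card_fin]
    have h4 := card_image_le (s := (univ.erase l).erase i) (f := w)
    rw [← h2, h1, h3] at h4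
    omega
  have hsub : (univ.filter fun l : Fin 5 => (univ.erase l).image w ∈ H) =
      ({i, j} : Finset (Fin 5)).filter fun l => (univ.erase l).image w ∈ H := by
    ext l
    simp only [mem_filter, mem_univ, true_and, mem_insert, mem_singleton]
    constructor
    · intro hl
      refine ⟨?_, hl⟩
      by_contra hcon
      push Not at hcon
      exact hoth l hcon.1 hcon.2 hl
    · exact fun h => h.2
  unfold ne at hw
  rw [hsub] at hw
  by_cases hi : (univ.erase i).image w ∈ H
  · rw [filter_true_of_mem (by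
      intro l hl
      rcases mem_insert.1 hl with rfl | hl
      · exact hi
      · rw [mem_singleton.1 hl]
        exact hsame.1 hi), card_pair hne] at hw
    exact absurd hw (by decide)
  · rw [filter_false_of_mem (by
      intro l hl
      rcases mem_insert.1 hl with rfl | hl
      · exact hi
      · rw [mem_singleton.1 hl]
        exact fun h => hi (hsame.2 h)), card_empty] at hw
    exact absurd hw (by decide)

theorem even_typeG {w : Fin 5 → Fin n} (h : TypeG H w) : Even (ne H w) := by
  obtain ⟨A, D, h⟩ := h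
  have h1 := even_gir A D
  unfold ne
  have h2 : (univ.filter fun j : Fin 5 => (univ.erase j).image w ∈ H) =
      univ.filter fun j : Fin 5 => gir A D (univ.erase j) := by
    refine filter_congr fun j _ => h _ ?_
    rw [card_erase_of_mem (mem_univ _), card_univ, Fintype.card_fin]
  rw [h2]
  exact h1

/-- seven vertices from five and two -/
def ap7 (p : Fin 5 → Fin n) (q : Fin 2 → Fin n) : Fin 7 → Fin n :=
  fun i => if h : (i : ℕ) < 5 then p ⟨i, h⟩ else q ⟨i - 5, by omega⟩

/-- few five-tuples are odd -/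
theorem odd_le (hH : ∀ e ∈ H, e.card = 4) :
    (univ.filter fun w : Fin 5 → Fin n => Odd (ne H w)).card * n ^ 2 ≤ (B7 H).card + 49 * n ^ 6 := by
  classical
  have h1 : (univ.filter fun w : Fin 5 → Fin n => Odd (ne H w)).card * n ^ 2 ≤
      (univ.filter fun v : Fin 7 → Fin n => Odd (ne H (v ∘ Fin.castLE (by omega)))).card := by
    have h2 : (univ.filter fun w : Fin 5 → Fin n => Odd (ne H w)).card * n ^ 2 =
        ((univ.filter fun w : Fin 5 → Fin n => Odd (ne H w)) ×ˢ
          (univ : Finset (Fin 2 → Fin n))).card := by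
      rw [card_product, card_univ, Fintype.card_fun, Fintype.card_fin, Fintype.card_fin]
    rw [h2]
    apply Finset.card_le_card_of_injOn (fun p => ap7 p.1 p.2)
    · intro p hp
      have hp' := (mem_filter.1 (mem_product.1 (mem_coe.1 hp)).1).2
      refine mem_coe.2 (mem_filter.2 ⟨mem_univ _, ?_⟩)
      have e1 : ap7 p.1 p.2 ∘ Fin.castLE (by omega) = p.1 := by
        funext i
        show (if h : (i : ℕ) < 5 then p.1 ⟨i, h⟩ else _) = p.1 i
        rw [dif_pos i.2]
      rw [e1]
      exact hp'
    · rintro ⟨p, q⟩ _ ⟨p', q'⟩ _ h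
      simp only [Prod.mk.injEq]
      constructor
      · funext i
        have := congrFun h ⟨i, by omega⟩
        simp only [ap7, i.2, dif_pos, Fin.eta] at this
        exact this
      · funext i
        have := congrFun h ⟨i + 5, by omega⟩
        simp only [ap7, show ¬ ((i : ℕ) + 5 < 5) by omega, dif_neg, not_false_eq_true,
          Nat.add_sub_cancel, Fin.eta] at this
        exact this
  refine h1.trans ?_
  have h3 : (univ.filter fun v : Fin 7 → Fin n => Odd (ne H (v ∘ Fin.castLE (by omega)))) ⊆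
      B7 H ∪ univ.filter fun v : Fin 7 → Fin n => ¬ Function.Injective v := by
    intro v hv
    have hv' := (mem_filter.1 hv).2
    by_cases hinj : Function.Injective v
    · refine mem_union_left _ (mem_filter.2 ⟨mem_univ _, hinj, fun hT => ?_⟩)
      have h4 := even_typeG (hT.comp (e := Fin.castLE (by omega : 5 ≤ 7)) (Fin.castLE_injective _))
      rw [← Nat.not_odd_iff_even] at h4
      exact h4 hv'
    · exact mem_union_right _ (mem_filter.2 ⟨mem_univ _, hinj⟩)
  refine (card_le_card h3).trans ((card_union_le _ _).trans (Nat.add_le_add_left ?_ _))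
  have h4 := card_noninj (ι := Fin 7) (n := n)
  rw [Fintype.card_fin] at h4
  exact h4

end five

/-! ### ten-tuples -/

section ten

variable {n : ℕ} {H : Finset (Finset (Fin n))}

/-- ten vertices from five and five -/
def ap (I q : Fin 5 → Fin n) : Fin 10 → Fin n :=
  fun i => if h : (i : ℕ) < 5 then I ⟨i, h⟩ else q ⟨i - 5, by omega⟩

theorem ap_inj {I q I' q' : Fin 5 → Fin n} (h : ap I q = ap I' q') : I = I' ∧ q = q' := by
  constructor
  · funext i
    have := congrFun h ⟨i, by omega⟩
    simp only [ap, i.2, dif_pos, Fin.eta] at this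
    exact this
  · funext i
    have := congrFun h ⟨i + 5, by omega⟩
    simp only [ap, show ¬ ((i : ℕ) + 5 < 5) by omega, dif_neg, not_false_eq_true,
      Nat.add_sub_cancel, Fin.eta] at this
    exact this

/-- the bad extensions -/
noncomputable def Bad (H : Finset (Finset (Fin n))) (I : Fin 5 → Fin n) :
    Finset (Fin 5 → Fin n) := by
  classical
  exact univ.filter fun q => ∃ e : Fin 7 → Fin 10, Function.Injective e ∧ ap I q ∘ e ∈ B7 H

theorem mem_Bad {I q : Fin 5 → Fin n} : q ∈ Bad H I ↔
    ∃ e : Fin 7 → Fin 10, Function.Injective e ∧ ap I q ∘ e ∈ B7 H := by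
  classical
  unfold Bad
  rw [mem_filter]
  simp

theorem sum_Bad (T : Finset (Fin 5 → Fin n)) :
    ∑ I ∈ T, (Bad H I).card ≤ 10 ^ 7 * ((B7 H).card * n ^ 3) := by
  classical
  obtain ⟨U, hU, hUc⟩ : ∃ U : Finset (Fin 7 → Fin 10), (∀ e, e ∈ U ↔ Function.Injective e) ∧
      U.card ≤ 10 ^ 7 := by
    refine ⟨univ.filter fun e => Function.Injective e, fun e => by
      rw [mem_filter]; exact ⟨fun h => h.2, fun h => ⟨mem_univ _, h⟩⟩, ?_⟩
    refine (card_le_univ _).trans (le_of_eq ?_)
    rw [Fintype.card_fun, Fintype.card_fin, Fintype.card_fin]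
  rw [← card_sigma]
  have h1 : (T.sigma fun I => Bad H I).card ≤
      (U.biUnion (fun e => univ.filter fun t : Fin 10 → Fin n => t ∘ e ∈ B7 H)).card := by
    apply Finset.card_le_card_of_injOn (fun p => ap p.1 p.2)
    · rintro ⟨I, q⟩ hp
      have hp1 : (⟨I, q⟩ : (_ : Fin 5 → Fin n) × (Fin 5 → Fin n)) ∈ T.sigma fun I => Bad H I :=
        mem_coe.1 hp
      have hp2 : q ∈ Bad H I := (mem_sigma.1 hp1).2
      obtain ⟨e, he, hb⟩ := mem_Bad.1 hp2
      have h3 : ap I q ∈ U.biUnion (fun e => univ.filter fun t : Fin 10 → Fin n =>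
          t ∘ e ∈ B7 H) := by
        rw [mem_biUnion]
        refine ⟨e, (hU e).2 he, ?_⟩
        rw [mem_filter]
        exact ⟨mem_univ _, hb⟩
      exact h3
    · rintro ⟨I, q⟩ _ ⟨I', q'⟩ _ h
      obtain ⟨rfl, rfl⟩ := ap_inj h
      rfl
  have h2 := card_biUnion_le_card_mul U
    (fun e => univ.filter fun t : Fin 10 → Fin n => t ∘ e ∈ B7 H) ((B7 H).card * n ^ 3) (by
      intro e he
      have h2 := card_comp_le (n := n) e ((hU e).1 he) (B7 H)
      rw [Fintype.card_fin, Fintype.card_fin] at h2
      exact h2)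
  exact h1.trans (h2.trans (Nat.mul_le_mul_right _ hUc))

/-- five vertices from one and four -/
def ct (b : Fin n) (q : Fin 4 → Fin n) : Fin 5 → Fin n :=
  fun i => if h : (i : ℕ) = 0 then b else q ⟨i - 1, by omega⟩

theorem ct_zero (b : Fin n) (q : Fin 4 → Fin n) : ct b q 0 = b := rfl

theorem ct_succ (b : Fin n) (q : Fin 4 → Fin n) (i : Fin 4) : ct b q i.succ = q i := by
  unfold ct
  rw [dif_neg (by simp)]
  rfl

theorem ct_inj {b b' : Fin n} {q q' : Fin 4 → Fin n} (h : ct b q = ct b' q') : b = b' ∧ q = q' := by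
  constructor
  · have := congrFun h 0
    rwa [ct_zero, ct_zero] at this
  · funext i
    have := congrFun h i.succ
    rwa [ct_succ, ct_succ] at this

theorem ap_lt (I r : Fin 5 → Fin n) {i : Fin 10} (h : (i : ℕ) < 5) : ap I r i = I ⟨i, h⟩ :=
  dif_pos h

theorem ap_ge (I r : Fin 5 → Fin n) {i : Fin 10} (h : ¬ (i : ℕ) < 5) :
    ap I r i = r ⟨i - 5, by omega⟩ := dif_neg h

theorem ap_injective {I r : Fin 5 → Fin n} (hI : Function.Injective I) (hr : Function.Injective r)
    (h : ∀ i j, r j ≠ I i) : Function.Injective (ap I r) := by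
  intro i j hij
  by_cases hi : (i : ℕ) < 5
  · by_cases hj : (j : ℕ) < 5
    · rw [ap_lt I r hi, ap_lt I r hj] at hij
      have := hI hij
      rw [Fin.mk.injEq] at this
      exact Fin.ext this
    · rw [ap_lt I r hi, ap_ge I r hj] at hij
      exact absurd hij.symm (h _ _)
  · by_cases hj : (j : ℕ) < 5
    · rw [ap_ge I r hi, ap_lt I r hj] at hij
      exact absurd hij (h _ _)
    · rw [ap_ge I r hi, ap_ge I r hj] at hij
      have := hr hij
      rw [Fin.mk.injEq] at this
      exact Fin.ext (by omega)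

theorem ct_injective {b : Fin n} {q : Fin 4 → Fin n} (hq : Function.Injective q)
    (h : ∀ j, q j ≠ b) : Function.Injective (ct b q) := by
  intro i j hij
  refine Fin.cases ?_ (fun i' => ?_) i (motive := fun i => ct b q i = ct b q j → i = j) hij
  · intro h0
    refine Fin.cases (fun _ => rfl) (fun j' h1 => ?_) j
      (motive := fun j => ct b q 0 = ct b q j → 0 = j) h0
    rw [ct_zero, ct_succ] at h1
    exact absurd h1.symm (h _)
  · intro h0
    refine Fin.cases (fun h1 => ?_) (fun j' h1 => ?_) j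
      (motive := fun j => ct b q i'.succ = ct b q j → i'.succ = j) h0
    · rw [ct_zero, ct_succ] at h1
      exact absurd h1 (h _)
    · rw [ct_succ, ct_succ] at h1
      rw [hq h1]

open Classical in
/-- few extensions are not injective -/
theorem noninj5 {I : Fin 5 → Fin n} (hI : Function.Injective I) :
    (univ.filter fun r : Fin 5 → Fin n => ¬ Function.Injective (ap I r)).card ≤ 50 * n ^ 4 := by
  have h1 : (univ.filter fun r : Fin 5 → Fin n => ¬ Function.Injective (ap I r)) ⊆
      (univ.filter fun r : Fin 5 → Fin n => ¬ Function.Injective r) ∪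
        (univ : Finset (Fin 5 × Fin 5)).biUnion fun p =>
          univ.filter fun r : Fin 5 → Fin n => r p.2 = I p.1 := by
    intro r hr
    rw [mem_filter] at hr
    by_contra hcon
    rw [mem_union, not_or, mem_filter, mem_biUnion] at hcon
    push Not at hcon
    refine hr.2 (ap_injective hI (by simpa using hcon.1) fun i j hij => ?_)
    refine hcon.2 (i, j) (mem_univ _) ?_
    rw [mem_filter]
    exact ⟨mem_univ _, hij⟩
  have h2 := card_noninj (ι := Fin 5) (n := n)
  have h3 := card_biUnion_le_card_mul (univ : Finset (Fin 5 × Fin 5)) (fun p =>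
    univ.filter fun r : Fin 5 → Fin n => r p.2 = I p.1) (n ^ 4) (fun p _ => by
      have := card_val_le (n := n) p.2 (I p.1)
      rwa [Fintype.card_fin] at this)
  rw [card_univ, Fintype.card_prod, Fintype.card_fin] at h3
  rw [Fintype.card_fin] at h2
  refine (card_le_card h1).trans ((card_union_le _ _).trans ?_)
  norm_num at h2 h3 ⊢
  omega

open Classical in
/-- few extensions are not injective -/
theorem noninj4 {I : Fin 5 → Fin n} (hI : Function.Injective I) {b : Fin n} (hb : ∀ i, b ≠ I i) :
    (univ.filter fun q : Fin 4 → Fin n => ¬ Function.Injective (ap I (ct b q))).card ≤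
      40 * n ^ 3 := by
  have h1 : (univ.filter fun q : Fin 4 → Fin n => ¬ Function.Injective (ap I (ct b q))) ⊆
      ((univ.filter fun q : Fin 4 → Fin n => ¬ Function.Injective q) ∪
        (univ : Finset (Fin 4)).biUnion fun j => univ.filter fun q : Fin 4 → Fin n => q j = b) ∪
        (univ : Finset (Fin 5 × Fin 4)).biUnion fun p =>
          univ.filter fun q : Fin 4 → Fin n => q p.2 = I p.1 := by
    intro q hq
    rw [mem_filter] at hq
    by_contra hcon
    rw [mem_union, mem_union, not_or, not_or, mem_filter, mem_biUnion, mem_biUnion] at hcon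
    push Not at hcon
    obtain ⟨⟨c1, c2⟩, c3⟩ := hcon
    have d1 : Function.Injective q := by simpa using c1
    have d2 : ∀ j, q j ≠ b := fun j hj => c2 j (mem_univ _) (by
      rw [mem_filter]
      exact ⟨mem_univ _, hj⟩)
    have d3 : ∀ i j, q j ≠ I i := fun i j hj => c3 (i, j) (mem_univ _) (by
      rw [mem_filter]
      exact ⟨mem_univ _, hj⟩)
    refine hq.2 (ap_injective hI (ct_injective d1 d2) fun i j => ?_)
    refine Fin.cases ?_ (fun j' => ?_) j
    · rw [ct_zero]
      exact hb i
    · rw [ct_succ]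
      exact d3 i j'
  have h2 := card_noninj (ι := Fin 4) (n := n)
  have h3 := card_biUnion_le_card_mul (univ : Finset (Fin 4)) (fun j =>
    univ.filter fun q : Fin 4 → Fin n => q j = b) (n ^ 3) (fun j _ => by
      have := card_val_le (n := n) j b
      rwa [Fintype.card_fin] at this)
  have h4 := card_biUnion_le_card_mul (univ : Finset (Fin 5 × Fin 4)) (fun p =>
    univ.filter fun q : Fin 4 → Fin n => q p.2 = I p.1) (n ^ 3) (fun p _ => by
      have := card_val_le (n := n) p.2 (I p.1)
      rwa [Fintype.card_fin] at this)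
  rw [card_univ, Fintype.card_prod, Fintype.card_fin, Fintype.card_fin] at h4
  rw [card_univ, Fintype.card_fin] at h3
  rw [Fintype.card_fin] at h2
  refine (card_le_card h1).trans ((card_union_le _ _).trans ((Nat.add_le_add_right
    (card_union_le _ _) _).trans ?_))
  norm_num at h2 h3 h4 ⊢
  omega

/-- each four-set is the image of twenty-four tuples -/
theorem count24 (F : Finset (Finset (Fin n))) (hF : ∀ e ∈ F, e.card = 4) :
    24 * F.card ≤ (univ.filter fun q : Fin 4 → Fin n => univ.image q ∈ F).card := by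
  classical
  have key := Finset.card_eq_sum_card_fiberwise (f := fun q : Fin 4 → Fin n => univ.image q)
    (s := univ.filter fun q : Fin 4 → Fin n => univ.image q ∈ F) (t := F)
    (fun q hq => (mem_filter.1 (mem_coe.1 hq)).2)
  rw [key, mul_comm, ← smul_eq_mul, ← Finset.sum_const]
  refine sum_le_sum fun e he => ?_
  have h4 := hF e he
  let φ : Fin 4 ≃ e := (Fin.castOrderIso h4.symm).toEquiv.trans e.equivFin.symm
  have h5 : Fintype.card (Equiv.Perm (Fin 4)) = 24 := by
    rw [Fintype.card_perm, Fintype.card_fin]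
    rfl
  rw [← h5, ← card_univ]
  apply Finset.card_le_card_of_injOn (fun σ i => (φ (σ i)).1)
  · intro σ _
    have h6 : univ.image (fun i => (φ (σ i)).1) = e := by
      ext x
      simp only [mem_image, mem_univ, true_and]
      constructor
      · rintro ⟨i, rfl⟩
        exact (φ (σ i)).2
      · intro hx
        refine ⟨σ.symm (φ.symm ⟨x, hx⟩), ?_⟩
        rw [Equiv.apply_symm_apply, Equiv.apply_symm_apply]
    refine mem_coe.2 ?_
    rw [mem_filter, mem_filter]
    exact ⟨⟨mem_univ _, by rw [h6]; exact he⟩, h6⟩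
  · intro σ _ τ _ h
    ext1 i
    exact φ.injective (Subtype.ext (congrFun h i))

theorem image4 (q : Fin 4 → Fin n) : univ.image q = {q 0, q 1, q 2, q 3} := by
  have : (univ : Finset (Fin 4)) = {0, 1, 2, 3} := by decide
  rw [this]
  simp only [image_insert, image_singleton]

theorem erase4 (I : Fin 5 → Fin n) : (univ.erase (4 : Fin 5)).image I = {I 0, I 1, I 2, I 3} := by
  have : (univ : Finset (Fin 5)).erase 4 = {0, 1, 2, 3} := by decide
  rw [this]
  simp only [image_insert, image_singleton]

theorem erase3 (I : Fin 5 → Fin n) : (univ.erase (3 : Fin 5)).image I = {I 0, I 1, I 2, I 4} := by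
  have : (univ : Finset (Fin 5)).erase 3 = {0, 1, 2, 4} := by decide
  rw [this]
  simp only [image_insert, image_singleton]

theorem erase2 (I : Fin 5 → Fin n) : (univ.erase (2 : Fin 5)).image I = {I 0, I 1, I 3, I 4} := by
  have : (univ : Finset (Fin 5)).erase 2 = {0, 1, 3, 4} := by decide
  rw [this]
  simp only [image_insert, image_singleton]

theorem erase1 (I : Fin 5 → Fin n) : (univ.erase (1 : Fin 5)).image I = {I 0, I 2, I 3, I 4} := by
  have : (univ : Finset (Fin 5)).erase 1 = {0, 2, 3, 4} := by decide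
  rw [this]
  simp only [image_insert, image_singleton]

theorem erase0 (I : Fin 5 → Fin n) : (univ.erase (0 : Fin 5)).image I = {I 1, I 2, I 3, I 4} := by
  have : (univ : Finset (Fin 5)).erase 0 = {1, 2, 3, 4} := by decide
  rw [this]
  simp only [image_insert, image_singleton]

/-- piece 2 for the tuples `(I, b, q)` -/
theorem use_S2 (h2 : S2) {I : Fin 5 → Fin n}
    (hind : ∀ j : Fin 5, (univ.erase j).image I ∉ H) {b : Fin n} {q : Fin 4 → Fin n}
    (hinj : Function.Injective (ap I (ct b q))) (hbad : ct b q ∉ Bad H I) :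
    ((∀ i, ({I 0, I 1, I 2, q i} : Finset (Fin n)) ∉ H) → univ.image q ∉ H) ∧
    (({I 0, I 1, I 2, b} : Finset (Fin n)) ∈ H → (univ.image q ∈ H ↔
      gir (univ.filter fun x => ({I 0, I 1, I 2, x} : Finset (Fin n)) ∉ H)
        (fun x y => decide (({I 0, x, y, b} : Finset (Fin n)) ∈ H)) (univ.image q))) := by
  have hT : ∀ e : Fin 7 → Fin 10, Function.Injective e → TypeG H (ap I (ct b q) ∘ e) := by
    classical
    intro e he
    by_contra hcon
    refine hbad (mem_Bad.2 ⟨e, he, ?_⟩)
    unfold B7
    rw [mem_filter]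
    exact ⟨mem_univ _, hinj.comp he, hcon⟩
  have h := h2 n H (ap I (ct b q)) hinj hT
    (by have := hind 4; rw [erase4] at this; exact this)
    (by have := hind 3; rw [erase3] at this; exact this)
    (by have := hind 2; rw [erase2] at this; exact this)
    (by have := hind 1; rw [erase1] at this; exact this)
    (by have := hind 0; rw [erase0] at this; exact this)
  rw [image4]
  exact ⟨fun h0 => h.1 ⟨h0 0, h0 1, h0 2, h0 3⟩, fun h0 => h.2 h0⟩

end ten

/-! ### the result -/

open Classical in
/-- a good five-tuple -/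
theorem exists_I {n : ℕ} {H : Finset (Finset (Fin n))} (h1 : S1) (hH : ∀ e ∈ H, e.card = 4)
    (hn : 10 ^ 5 ≤ n) (hb : 10 ^ 12 * (B7 H).card ≤ n ^ 7) :
    ∃ I : Fin 5 → Fin n, Function.Injective I ∧ (∀ j : Fin 5, (univ.erase j).image I ∉ H) ∧
      n ^ 2 * (Bad H I).card ≤ 64 * 10 ^ 7 * (B7 H).card := by
  obtain ⟨T, hT⟩ : ∃ T : Finset (Fin 5 → Fin n), T = univ.filter fun I : Fin 5 → Fin n =>
    Function.Injective I ∧ ∀ j : Fin 5, (univ.erase j).image I ∉ H := ⟨_, rfl⟩
  have hodd := odd_le (n := n) hH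
  have hs := h1 n H hH
  have hN : (univ.filter fun w : Fin 5 → Fin n => ∀ j : Fin 5, (univ.erase j).image w ∉ H).card ≤
      T.card + 25 * n ^ 4 := by
    have e1 : (univ.filter fun w : Fin 5 → Fin n => ∀ j : Fin 5, (univ.erase j).image w ∉ H) ⊆
        T ∪ univ.filter fun f : Fin 5 → Fin n => ¬ Function.Injective f := by
      intro w hw
      rw [mem_filter] at hw
      rw [mem_union, hT, mem_filter, mem_filter]
      by_cases hi : Function.Injective w
      · exact Or.inl ⟨mem_univ _, hi, hw.2⟩
      · exact Or.inr ⟨mem_univ _, hi⟩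
    have e2 := card_noninj (ι := Fin 5) (n := n)
    rw [Fintype.card_fin] at e2
    refine (card_le_card e1).trans ((card_union_le _ _).trans (Nat.add_le_add_left ?_ _))
    exact e2
  have hodd' : (univ.filter fun w : Fin 5 → Fin n =>
      Odd (univ.filter fun j : Fin 5 => (univ.erase j).image w ∈ H).card).card * n ^ 2 ≤
      (B7 H).card + 49 * n ^ 6 := hodd
  generalize hgo : (univ.filter fun w : Fin 5 → Fin n =>
      Odd (univ.filter fun j : Fin 5 => (univ.erase j).image w ∈ H).card).card = o at hs hodd'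
  generalize hgN : (univ.filter fun w : Fin 5 → Fin n =>
    ∀ j : Fin 5, (univ.erase j).image w ∉ H).card = N0 at hs hN
  have hTc : n ^ 5 ≤ 64 * T.card := by
    by_contra hcon
    push Not at hcon
    have p2 : 0 < n ^ 2 := by positivity
    have c1 : 64 * T.card * n ^ 2 < n ^ 5 * n ^ 2 := Nat.mul_lt_mul_of_pos_right hcon p2
    have c2 : 3 * n ^ 5 * n ^ 2 ≤ (128 * N0 + 48 * o) * n ^ 2 := Nat.mul_le_mul_right _ hs
    have c3 : N0 * n ^ 2 ≤ (T.card + 25 * n ^ 4) * n ^ 2 := Nat.mul_le_mul_right _ hN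
    have c4 : 10 ^ 5 * n ^ 6 ≤ n * n ^ 6 := Nat.mul_le_mul_right _ hn
    have q7 : n ^ 5 * n ^ 2 = n ^ 7 := by ring
    have q7' : n * n ^ 6 = n ^ 7 := by ring
    have q6 : n ^ 4 * n ^ 2 = n ^ 6 := by ring
    nlinarith
  have hTne : T.Nonempty := by
    rw [nonempty_iff_ne_empty]
    rintro rfl
    rw [card_empty] at hTc
    have : 0 < n ^ 5 := by positivity
    omega
  have hsum := sum_Bad (n := n) (H := H) T
  obtain ⟨I, hI, hle⟩ := Finset.exists_le_of_sum_le (s := T) (f := fun I => T.card * (Bad H I).card)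
    (g := fun _ => 10 ^ 7 * ((B7 H).card * n ^ 3)) hTne (by
      rw [← mul_sum, sum_const, smul_eq_mul]
      exact Nat.mul_le_mul_left _ hsum)
  rw [hT, mem_filter] at hI
  refine ⟨I, hI.2.1, hI.2.2, ?_⟩
  have p3 : 0 < n ^ 3 := by positivity
  refine Nat.le_of_mul_le_mul_left ?_ p3
  have c1 : n ^ 5 * (Bad H I).card ≤ 64 * T.card * (Bad H I).card := Nat.mul_le_mul_right _ hTc
  have c2 : T.card * (Bad H I).card ≤ 10 ^ 7 * ((B7 H).card * n ^ 3) := hle
  calc n ^ 3 * (n ^ 2 * (Bad H I).card) = n ^ 5 * (Bad H I).card := by ring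
    _ ≤ 64 * (T.card * (Bad H I).card) := by rw [← mul_assoc]; exact c1
    _ ≤ 64 * (10 ^ 7 * ((B7 H).card * n ^ 3)) := Nat.mul_le_mul_left _ c2
    _ = n ^ 3 * (64 * 10 ^ 7 * (B7 H).card) := by ring

/-- **Piece 3.** -/
theorem s3 (h1 : S1) (h2 : S2) : S3 := by
  classical
  refine ⟨10 ^ 13, fun n H hH hd => ?_⟩
  -- the trivial bound
  have triv : ∀ F : Finset (Finset (Fin n)), (∀ e ∈ F, e.card = 4) → F.card ≤ n ^ 4 := by
    intro F hF
    have e1 := count24 F hF
    have e2 := card_le_univ (univ.filter fun q : Fin 4 → Fin n => univ.image q ∈ F)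
    rw [Fintype.card_fun, Fintype.card_fin, Fintype.card_fin] at e2
    omega
  have hsd : ∀ (A : Finset (Fin n)) (D : Fin n → Fin n → Bool), ∀ e ∈ symmDiff H (girG A D),
      e.card = 4 := by
    intro A D e he
    rcases mem_symmDiff.1 he with h | h
    · exact hH e h.1
    · have h3 := h.1
      unfold girG at h3
      rw [mem_filter, mem_powersetCard] at h3
      exact h3.1.2
  by_cases hn : n < 10 ^ 5
  · refine ⟨∅, fun _ _ => false, ?_⟩
    have e1 := triv _ (hsd ∅ fun _ _ => false)
    calc (symmDiff H (girG ∅ fun _ _ => false)).card * n ^ 3 ≤ n ^ 4 * n ^ 3 :=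
          Nat.mul_le_mul_right _ e1
      _ = n * n ^ 6 := by ring
      _ ≤ 10 ^ 5 * n ^ 6 := Nat.mul_le_mul_right _ hn.le
      _ ≤ 10 ^ 13 * ((B7 H).card + n ^ 6) := by
        rw [Nat.mul_add]
        refine le_trans ?_ (Nat.le_add_left _ _)
        exact Nat.mul_le_mul_right _ (by norm_num)
  push Not at hn
  by_cases hb : n ^ 7 < 10 ^ 12 * (B7 H).card
  · refine ⟨∅, fun _ _ => false, ?_⟩
    have e1 := triv _ (hsd ∅ fun _ _ => false)
    calc (symmDiff H (girG ∅ fun _ _ => false)).card * n ^ 3 ≤ n ^ 4 * n ^ 3 :=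
          Nat.mul_le_mul_right _ e1
      _ = n ^ 7 := by ring
      _ ≤ 10 ^ 12 * (B7 H).card := hb.le
      _ ≤ 10 ^ 13 * ((B7 H).card + n ^ 6) := by
        rw [Nat.mul_add]
        refine le_trans ?_ (Nat.le_add_right _ _)
        exact Nat.mul_le_mul_right _ (by norm_num)
  push Not at hb
  obtain ⟨I, hI, hind, hBad⟩ := exists_I h1 hH hn hb
  obtain ⟨b, hbd⟩ : ∃ b, b = (B7 H).card := ⟨_, rfl⟩
  rw [← hbd] at hb hBad ⊢
  obtain ⟨β, hβ⟩ : ∃ β, β = (Bad H I).card := ⟨_, rfl⟩
  rw [← hβ] at hBad
  obtain ⟨A, hA⟩ : ∃ A : Finset (Fin n), A = univ.filter fun x =>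
    ({I 0, I 1, I 2, x} : Finset (Fin n)) ∉ H := ⟨_, rfl⟩
  have memA : ∀ x, x ∈ A ↔ ({I 0, I 1, I 2, x} : Finset (Fin n)) ∉ H := fun x => by
    rw [hA, mem_filter]
    exact ⟨fun h => h.2, fun h => ⟨mem_univ _, h⟩⟩
  -- the edges inside `A`
  obtain ⟨XA, hXA⟩ : ∃ XA : Finset (Fin 4 → Fin n), XA = univ.filter fun q : Fin 4 → Fin n =>
    (∀ i, q i ∈ A) ∧ univ.image q ∈ H := ⟨_, rfl⟩
  have hX : n * XA.card ≤ β + 50 * n ^ 4 := by
    have e1 : n * XA.card = ((univ : Finset (Fin n)) ×ˢ XA).card := by
      rw [card_product, card_univ, Fintype.card_fin]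
    have e2 : ((univ : Finset (Fin n)) ×ˢ XA).card ≤
        (Bad H I ∪ univ.filter fun r : Fin 5 → Fin n => ¬ Function.Injective (ap I r)).card := by
      apply Finset.card_le_card_of_injOn (fun p => ct p.1 p.2)
      · rintro ⟨b0, q⟩ hp
        have hq := (mem_product.1 (mem_coe.1 hp)).2
        rw [hXA, mem_filter] at hq
        refine mem_coe.2 ?_
        rw [mem_union]
        by_contra hcon
        push Not at hcon
        obtain ⟨c1, c2⟩ := hcon
        rw [mem_filter] at c2
        push Not at c2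
        have c3 := c2 (mem_univ _)
        exact (use_S2 h2 hind c3 c1).1 (fun i => (memA _).1 (hq.2.1 i)) hq.2.2
      · rintro ⟨b0, q⟩ _ ⟨b1, q'⟩ _ h
        obtain ⟨rfl, rfl⟩ := ct_inj h
        rfl
    have e3 := noninj5 hI
    rw [e1, hβ]
    exact e2.trans ((card_union_le _ _).trans (Nat.add_le_add_left e3 _))
  have hX' : 100 * XA.card ≤ n ^ 4 := by
    have p3 : 0 < n ^ 3 := by positivity
    refine Nat.le_of_mul_le_mul_left ?_ p3
    have c1 : n ^ 2 * (n * XA.card) ≤ n ^ 2 * (β + 50 * n ^ 4) := Nat.mul_le_mul_left _ hX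
    have c2 : 10 ^ 5 * n ^ 6 ≤ n * n ^ 6 := Nat.mul_le_mul_right _ hn
    have q7 : n * n ^ 6 = n ^ 7 := by ring
    have q7' : n ^ 3 * n ^ 4 = n ^ 7 := by ring
    have q6 : n ^ 2 * (β + 50 * n ^ 4) = n ^ 2 * β + 50 * n ^ 6 := by ring
    have q3 : n ^ 2 * (n * XA.card) = n ^ 3 * XA.card := by ring
    have q4 : n ^ 3 * (100 * XA.card) = 100 * (n ^ 3 * XA.card) := by ring
    rw [q7', q4]
    rw [q3, q6] at c1
    omega
  have hA4 : 24 * H.card + A.card ^ 4 ≤ n ^ 4 + XA.card := by
    have e1 := count24 H hH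
    have e2 : (Fintype.piFinset fun _ : Fin 4 => A).card = A.card ^ 4 := by
      rw [Fintype.card_piFinset, prod_const, card_univ, Fintype.card_fin]
    have e3 := card_union_add_card_inter (univ.filter fun q : Fin 4 → Fin n => univ.image q ∈ H)
      (Fintype.piFinset fun _ : Fin 4 => A)
    have e4 : (univ.filter fun q : Fin 4 → Fin n => univ.image q ∈ H) ∩
        (Fintype.piFinset fun _ : Fin 4 => A) = XA := by
      ext q
      rw [hXA, mem_inter, mem_filter, mem_filter, Fintype.mem_piFinset]
      tauto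
    have e5 := card_le_univ ((univ.filter fun q : Fin 4 → Fin n => univ.image q ∈ H) ∪
      (Fintype.piFinset fun _ : Fin 4 => A))
    rw [Fintype.card_fun, Fintype.card_fin, Fintype.card_fin] at e5
    rw [e4] at e3
    omega
  have hAc : 5 * A.card ≤ 4 * n := by
    by_contra hcon
    push Not at hcon
    have c1 := Nat.pow_lt_pow_left hcon (show 4 ≠ 0 by norm_num)
    rw [Nat.mul_pow, Nat.mul_pow] at c1
    norm_num at c1
    omega
  obtain ⟨B, hB⟩ : ∃ B : Finset (Fin n), B = Aᶜ := ⟨_, rfl⟩
  have hBc : n ≤ 5 * B.card := by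
    have e1 := card_add_card_compl A
    rw [Fintype.card_fin, ← hB] at e1
    omega
  have memB : ∀ x, x ∈ B → ({I 0, I 1, I 2, x} : Finset (Fin n)) ∈ H := fun x hx => by
    by_contra hcon
    rw [hB, mem_compl] at hx
    exact hx ((memA x).2 hcon)
  -- the mismatches
  obtain ⟨M, hM⟩ : ∃ M : Fin n → Finset (Fin 4 → Fin n), M = fun b0 => univ.filter fun q =>
    Function.Injective (ap I (ct b0 q)) ∧ ¬ (univ.image q ∈ H ↔
      gir A (fun x y => decide (({I 0, x, y, b0} : Finset (Fin n)) ∈ H)) (univ.image q)) := ⟨_, rfl⟩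
  have hMs : ∑ b0 ∈ B, (M b0).card ≤ β := by
    rw [← card_sigma, hβ]
    apply Finset.card_le_card_of_injOn (fun p => ct p.1 p.2)
    · rintro ⟨b0, q⟩ hp
      have hp1 : (⟨b0, q⟩ : (_ : Fin n) × (Fin 4 → Fin n)) ∈ B.sigma M := mem_coe.1 hp
      obtain ⟨hb0, hq⟩ := mem_sigma.1 hp1
      rw [hM, mem_filter] at hq
      by_contra hcon
      refine hq.2.2 ?_
      have := (use_S2 h2 hind hq.2.1 hcon).2 (memB _ hb0)
      rw [← hA] at this
      exact this
    · rintro ⟨b0, q⟩ _ ⟨b1, q'⟩ _ h
      obtain ⟨rfl, rfl⟩ := ct_inj h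
      rfl
  have hBne : B.Nonempty := by
    rw [nonempty_iff_ne_empty]
    rintro rfl
    rw [card_empty] at hBc
    omega
  obtain ⟨b0, hb0, hle⟩ := Finset.exists_le_of_sum_le (s := B) (f := fun b0 => B.card * (M b0).card)
    (g := fun _ => β) hBne (by
      rw [← mul_sum, sum_const, smul_eq_mul]
      exact Nat.mul_le_mul_left _ hMs)
  refine ⟨A, fun x y => decide (({I 0, x, y, b0} : Finset (Fin n)) ∈ H), ?_⟩
  have hb0I : ∀ i, b0 ≠ I i := by
    have hmem := memB b0 hb0
    have hc4 := hH _ hmem
    have small : ∀ x y z : Fin n, ({x, y, z} : Finset (Fin n)).card ≤ 3 := fun x y z => card_le_three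
    intro i hi
    have hcases : i = 0 ∨ i = 1 ∨ i = 2 ∨ i = 3 ∨ i = 4 := by omega
    rcases hcases with rfl | rfl | rfl | rfl | rfl
    · have e1 : ({I 0, I 1, I 2, b0} : Finset (Fin n)) = {I 0, I 1, I 2} := by
        rw [hi]
        ext x
        simp only [mem_insert, mem_singleton]
        tauto
      rw [e1] at hc4
      have := small (I 0) (I 1) (I 2)
      omega
    · have e1 : ({I 0, I 1, I 2, b0} : Finset (Fin n)) = {I 0, I 1, I 2} := by
        rw [hi]
        ext x
        simp only [mem_insert, mem_singleton]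
        tauto
      rw [e1] at hc4
      have := small (I 0) (I 1) (I 2)
      omega
    · have e1 : ({I 0, I 1, I 2, b0} : Finset (Fin n)) = {I 0, I 1, I 2} := by
        rw [hi]
        ext x
        simp only [mem_insert, mem_singleton]
        tauto
      rw [e1] at hc4
      have := small (I 0) (I 1) (I 2)
      omega
    · rw [hi] at hmem
      have := hind 4
      rw [erase4] at this
      exact this hmem
    · rw [hi] at hmem
      have := hind 3
      rw [erase3] at this
      exact this hmem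
  have hfin : 24 * (symmDiff H (girG A fun x y =>
      decide (({I 0, x, y, b0} : Finset (Fin n)) ∈ H))).card ≤ (M b0).card + 40 * n ^ 3 := by
    refine (count24 _ (hsd _ _)).trans ?_
    have e1 : (univ.filter fun q : Fin 4 → Fin n => univ.image q ∈ symmDiff H (girG A fun x y =>
        decide (({I 0, x, y, b0} : Finset (Fin n)) ∈ H))) ⊆
        M b0 ∪ univ.filter fun q : Fin 4 → Fin n => ¬ Function.Injective (ap I (ct b0 q)) := by
      intro q hq
      rw [mem_filter] at hq
      have hq4 := hsd _ _ _ hq.2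
      rw [mem_union, hM, mem_filter, mem_filter]
      by_cases hi : Function.Injective (ap I (ct b0 q))
      · refine Or.inl ⟨mem_univ _, hi, fun hiff => ?_⟩
        rcases mem_symmDiff.1 hq.2 with h | h
        · refine h.2 ?_
          unfold girG
          rw [mem_filter, mem_powersetCard]
          exact ⟨⟨subset_univ _, hq4⟩, hiff.1 h.1⟩
        · have h3 := h.1
          unfold girG at h3
          rw [mem_filter] at h3
          exact h.2 (hiff.2 h3.2)
      · exact Or.inr ⟨mem_univ _, hi⟩
    exact (card_le_card e1).trans ((card_union_le _ _).trans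
      (Nat.add_le_add_left (noninj4 hI hb0I) _))
  generalize (symmDiff H (girG A fun x y =>
      decide (({I 0, x, y, b0} : Finset (Fin n)) ∈ H))).card = S at hfin ⊢
  generalize (M b0).card = m at hfin hle
  have hle' : B.card * m ≤ β := hle
  have c1 : n * m ≤ 5 * β := by
    calc n * m ≤ 5 * B.card * m := Nat.mul_le_mul_right _ hBc
      _ = 5 * (B.card * m) := by ring
      _ ≤ 5 * β := Nat.mul_le_mul_left _ hle'
  have c2 : n ^ 2 * (n * m) ≤ n ^ 2 * (5 * β) := Nat.mul_le_mul_left _ c1
  have c3 : 24 * S * n ^ 3 ≤ (m + 40 * n ^ 3) * n ^ 3 := Nat.mul_le_mul_right _ hfin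
  have q1 : n ^ 2 * (n * m) = m * n ^ 3 := by ring
  have q2 : n ^ 2 * (5 * β) = 5 * (n ^ 2 * β) := by ring
  have q3 : (m + 40 * n ^ 3) * n ^ 3 = m * n ^ 3 + 40 * n ^ 6 := by ring
  have q4 : 24 * S * n ^ 3 = 24 * (S * n ^ 3) := by ring
  rw [q1, q2] at c2
  rw [q3, q4] at c3
  omega

end Pool.Agent.J6H5.St
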