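import Pool.Agent.J6H5.Sg.Lim
import Pool.Agent.J6H5.St.P1
import Pool.Agent.J6H5.St.P2
import Pool.Agent.J6H5.St.P3

/-! The stability theorem. -/

set_option autoImplicit false
open Finset

namespace Pool.Agent.J6H5.St

open Pool.Agent.J6H5.Sg (CliqueFree patterns edges bad7)

theorem girG_empty {n : ℕ} (D : Fin n → Fin n → Bool) : girG (∅ : Finset (Fin n)) D = ∅ := by
  unfold girG
  rw [filter_eq_empty_iff]
  intro Q _ h
  unfold gir at h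
  simp at h

theorem stab : ∃ C : ℝ, 0 < C ∧ ∀ (n : ℕ) (H : Finset (Finset (Fin n))), 1 ≤ n → H ⊆ powersetCard 4 univ → CliqueFree H →
    ∃ (A : Finset (Fin n)) (D : Fin n → Fin n → Bool), ((symmDiff H (girG A D)).card : ℝ) ≤
      C * (n : ℝ) ^ 4 * (11 / 16 + 720 * (patterns H : ℝ) / (n : ℝ) ^ 6 + 16 / (n : ℝ) - 24 * (H.card : ℝ) / (n : ℝ) ^ 4) := by
  obtain ⟨C, hC⟩ := s3 s1 s2
  refine ⟨3040 * C + 4, by positivity, fun n H hn hH hK => ?_⟩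
  have hr : ∀ A ∈ H, A.card = 4 := fun A hA => (mem_powersetCard.mp (hH hA)).2
  have h1 := edges hr hK
  have h3 := bad7 hr hK
  have hn0 : (1 : ℝ) ≤ n := by exact_mod_cast hn
  have hpos : (0 : ℝ) < n := by linarith
  set p : ℝ := (patterns H : ℝ) with hp
  set m : ℝ := (H.card : ℝ) with hm
  have hp0 : 0 ≤ p := Nat.cast_nonneg _
  have hm0 : 0 ≤ m := Nat.cast_nonneg _
  set E : ℝ := 11 / 16 + 720 * p / (n : ℝ) ^ 6 + 16 / (n : ℝ) - 24 * m / (n : ℝ) ^ 4 with hE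
  have e7 : (n : ℝ) ^ 7 * E = 11 / 16 * (n : ℝ) ^ 7 + 720 * p * n + 16 * (n : ℝ) ^ 6 - 24 * m * (n : ℝ) ^ 3 := by
    rw [hE]
    field_simp
  have e4 : (n : ℝ) ^ 7 * E = (n : ℝ) ^ 3 * ((n : ℝ) ^ 4 * E) := by ring
  by_cases hd : 68 * n ^ 4 ≤ 2400 * H.card
  · obtain ⟨A, D, h⟩ := hC n H hr hd
    refine ⟨A, D, ?_⟩
    have h' : ((symmDiff H (girG A D)).card : ℝ) * (n : ℝ) ^ 3 ≤ C * (((B7 H).card : ℝ) + (n : ℝ) ^ 6) := by exact_mod_cast h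
    have h3' : 190 * (16 * (24 * m) * (n : ℝ) ^ 3) + ((B7 H).card : ℝ) ≤
        190 * (11 * (n : ℝ) ^ 7 + 16 * (n * (720 * p + 15 * (n : ℝ) ^ 5))) := by
      rw [hm, hp]
      exact_mod_cast h3
    have h6 : (0 : ℝ) ≤ (n : ℝ) ^ 6 := by positivity
    have hb : ((B7 H).card : ℝ) + (n : ℝ) ^ 6 ≤ 3040 * ((n : ℝ) ^ 7 * E) := by
      rw [e7]
      nlinarith
    have hb0 : (0 : ℝ) ≤ ((B7 H).card : ℝ) + (n : ℝ) ^ 6 := by positivity
    have hE0 : 0 ≤ (n : ℝ) ^ 7 * E := by linarith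
    have hE4 : 0 ≤ (n : ℝ) ^ 4 * E := by
      by_contra hneg
      rw [not_le] at hneg
      have : (n : ℝ) ^ 3 * ((n : ℝ) ^ 4 * E) < 0 := mul_neg_of_pos_of_neg (by positivity) hneg
      linarith
    have hn3 : (0 : ℝ) < (n : ℝ) ^ 3 := by positivity
    have hfin : ((symmDiff H (girG A D)).card : ℝ) * (n : ℝ) ^ 3 ≤ (3040 * C * ((n : ℝ) ^ 4 * E)) * (n : ℝ) ^ 3 := by
      calc ((symmDiff H (girG A D)).card : ℝ) * (n : ℝ) ^ 3 ≤ C * (((B7 H).card : ℝ) + (n : ℝ) ^ 6) := h'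
        _ ≤ C * (3040 * ((n : ℝ) ^ 7 * E)) := mul_le_mul_of_nonneg_left hb (Nat.cast_nonneg _)
        _ = (3040 * C * ((n : ℝ) ^ 4 * E)) * (n : ℝ) ^ 3 := by ring
    have hfin2 := le_of_mul_le_mul_right hfin hn3
    linarith
  · rw [not_le] at hd
    refine ⟨∅, fun _ _ => false, ?_⟩
    rw [girG_empty, ← bot_eq_empty, symmDiff_bot]
    have hd' : 2400 * m < 68 * (n : ℝ) ^ 4 := by
      rw [hm]
      exact_mod_cast hd
    have e8 : (n : ℝ) ^ 4 * E = 11 / 16 * (n : ℝ) ^ 4 + 720 * p / (n : ℝ) ^ 2 + 16 * (n : ℝ) ^ 3 - 24 * m := by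
      rw [hE]
      field_simp
    have k1 : 0 ≤ 720 * p / (n : ℝ) ^ 2 := by positivity
    have k2 : 0 ≤ 16 * (n : ℝ) ^ 3 := by positivity
    have k3 : 3 / 400 * (n : ℝ) ^ 4 ≤ (n : ℝ) ^ 4 * E := by
      rw [e8]
      linarith
    have hn4 : 0 < (n : ℝ) ^ 4 := by positivity
    have hE0 : 0 ≤ (n : ℝ) ^ 4 * E := by linarith
    have k4 : m ≤ 4 * ((n : ℝ) ^ 4 * E) := by linarith
    have k5 : 0 ≤ 3040 * (C : ℝ) * ((n : ℝ) ^ 4 * E) := mul_nonneg (by positivity) hE0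
    rw [← hm]
    linarith

end Pool.Agent.J6H5.St
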